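import Pool.Agent.R572.CA.Stm

/-!
# MP_9ec89f_lc: assembly
-/

namespace Agent.R572.CA

open Relation Asymptotics Filter

theorem asm_acc {A : Type} (M : CA A) (B : ℕ) {c : Config M} (h : M.Acc c) :
    (∀ c', M.Reach c c' → c'.cnt ≤ B) → M.AccB B c := by
  induction h with
  | final c h => exact fun hb => CA.AccB.final c (hb c ReflTransGen.refl) h
  | exist c c' h1 h2 _ ih =>
    exact fun hb => CA.AccB.exist c c' (hb c ReflTransGen.refl) h1 h2
      (ih (fun c'' h => hb c'' (ReflTransGen.head h2 h)))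
  | univ c h1 h2 _ ih =>
    exact fun hb => CA.AccB.univ c (hb c ReflTransGen.refl) h1 h2
      (fun c' hs => ih c' hs (fun c'' h => hb c'' (ReflTransGen.head hs h)))

theorem asm_middle_weak {A : Type} (M : CA A) (s : ℕ → ℕ) (h : M.MiddleBound s) :
    M.WeakBound s :=
  fun w hw => asm_acc M (s w.length) hw (h w hw)

theorem asm_strong_middle {A : Type} (M : CA A) (s : ℕ → ℕ) (h : M.StrongBound s) :
    M.MiddleBound s :=
  fun w _ c hc => h w c hc

theorem asm_log (k : ℕ) :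
    (fun n : ℕ => ((Nat.log 2 n + k : ℕ) : ℝ)) =O[atTop] (fun n : ℕ => Real.log (n : ℝ)) := by
  apply IsBigO.of_bound ((1 + k) / Real.log 2)
  filter_upwards [eventually_ge_atTop 2] with n hn
  have hn0 : (0 : ℝ) < n := by exact_mod_cast (by omega : 0 < n)
  have hl2 : 0 < Real.log 2 := Real.log_pos (by norm_num)
  have h2n : Real.log 2 ≤ Real.log n := Real.log_le_log (by norm_num) (by exact_mod_cast hn)
  have h1 : (Nat.log 2 n : ℝ) * Real.log 2 ≤ Real.log n := by
    rw [← Real.log_pow]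
    apply Real.log_le_log (by positivity)
    have := Nat.pow_log_le_self 2 (x := n) (by omega)
    exact_mod_cast this
  rw [Real.norm_of_nonneg (by positivity), Real.norm_of_nonneg (by linarith)]
  push_cast
  rw [div_mul_eq_mul_div, le_div_iff₀ hl2]
  have hk : (k : ℝ) * Real.log 2 ≤ k * Real.log n :=
    mul_le_mul_of_nonneg_left h2n (Nat.cast_nonneg k)
  linarith

theorem asm_lin (C : ℕ) :
    (fun n : ℕ => ((C * (n + 1) : ℕ) : ℝ)) =O[atTop] (fun n : ℕ => (n : ℝ)) := by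
  apply IsBigO.of_bound (2 * C)
  filter_upwards [eventually_ge_atTop 1] with n hn
  have hn1 : (1 : ℝ) ≤ n := by exact_mod_cast hn
  rw [Real.norm_of_nonneg (by positivity), Real.norm_of_nonneg (by positivity)]
  push_cast
  have hC : (0 : ℝ) ≤ C := Nat.cast_nonneg C
  nlinarith

theorem asm_mem (μ : Mode) {A : Type} (M : CA A) (h : M.Realtime) : μ.Mem M := by
  cases μ with
  | realtime => exact h
  | oneWay => trivial

theorem stmAssembly : StmAssembly := by
  intro hS hU hW hT hXU hXB μ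
  obtain ⟨MU, rU, wU, nU⟩ := hXU
  obtain ⟨MB, rB, mB, nB⟩ := hXB
  obtain ⟨CU, sU⟩ := hT Unit MU rU
  obtain ⟨CB, sB⟩ := hT Bool MB rB
  refine ⟨⟨⟨MU, fun n => Nat.log 2 n + 1, asm_mem μ MU rU, wU, asm_log 1, nU⟩, ?_⟩,
    ⟨⟨MB, fun n => Nat.log 2 n + 2, asm_mem μ MB rB, asm_middle_weak MB _ mB, asm_log 2, nB⟩, ?_⟩,
    ⟨⟨MU, fun n => CU * (n + 1), asm_mem μ MU rU, asm_strong_middle MU _ sU, asm_lin CU, nU⟩, ?_⟩,
    ⟨⟨MB, fun n => Nat.log 2 n + 2, asm_mem μ MB rB, mB, asm_log 2, nB⟩, ?_⟩,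
    ⟨⟨MU, fun n => CU * (n + 1), asm_mem μ MU rU, sU, asm_lin CU, nU⟩, ?_⟩,
    ⟨⟨MB, fun n => CB * (n + 1), asm_mem μ MB rB, sB, asm_lin CB, nB⟩, ?_⟩⟩
  · exact fun M s _ h ho => hW Unit M s h ho
  · exact fun M s _ h ho => hW Bool M s h ho
  · exact fun M s _ h ho => hU M s h ho
  · exact fun M s _ h ho => hW Bool M s (asm_middle_weak M s h) ho
  · exact fun M s _ h ho => hS Unit M s h ho
  · exact fun M s _ h ho => hS Bool M s h ho

end Agent.R572.CA
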