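import Mathlib

/-!
# Alternating one-counter automata and counter space (MP_9ec89f_lc): definitions
-/

namespace Agent.R572.CA

open Relation Asymptotics Filter

/-- The change of the counter in one step. -/
inductive Chg
  | dec
  | same
  | inc

/-- `d.Upd n n'`: the change `d` leads from counter value `n` to `n'` (a decrement is impossible at
zero). -/
def Chg.Upd : Chg → ℕ → ℕ → Prop
  | .dec, n, n' => n = n' + 1
  | .same, n, n' => n' = n
  | .inc, n, n' => n' = n + 1

/-- A one-way alternating one-counter automaton over the input alphabet `A`.
`δ q a z` is the (finite) list of moves in state `q` when the head scans `a` (`none` is the right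
end-marker) and `z` tells whether the counter is zero.  A move `(q', d, m)` goes to state `q'`,
changes the counter by `d` and advances the head iff `m = true`. -/
structure CA (A : Type) where
  Q : Type
  finQ : Finite Q
  start : Q
  universal : Set Q
  accepting : Set Q
  δ : Q → Option A → Bool → List (Q × Chg × Bool)

variable {A : Type}

/-- A configuration: state, counter value, unread part of the input. -/
structure Config (M : CA A) where
  state : M.Q
  cnt : ℕ
  rest : List A

namespace CA

/-- The initial configuration on input `w`. -/
def init (M : CA A) (w : List A) : Config M := ⟨M.start, 0, w⟩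

/-- One step. -/
def Step (M : CA A) (c c' : Config M) : Prop :=
  ∃ (q' : M.Q) (d : Chg) (m : Bool) (n' : ℕ),
    (q', d, m) ∈ M.δ c.state c.rest.head? (decide (c.cnt = 0)) ∧ d.Upd c.cnt n' ∧
    c' = ⟨q', n', if m then c.rest.tail else c.rest⟩

/-- `c'` occurs in some computation that starts in `c`. -/
def Reach (M : CA A) (c c' : Config M) : Prop := ReflTransGen M.Step c c'

/-- There is an accepting computation tree with root `c`: its leaves are configurations with
accepting states, an existential configuration has one successor in the tree, a universal
configuration has at least one successor and all its successors are in the tree. -/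
inductive Acc (M : CA A) : Config M → Prop
  | final (c : Config M) : c.state ∈ M.accepting → Acc M c
  | exist (c c' : Config M) : c.state ∉ M.universal → M.Step c c' → Acc M c' → Acc M c
  | univ (c : Config M) : c.state ∈ M.universal → (∃ c', M.Step c c') →
      (∀ c', M.Step c c' → Acc M c') → Acc M c

/-- There is an accepting computation tree with root `c` all of whose configurations have counter
value at most `B`. -/
inductive AccB (M : CA A) (B : ℕ) : Config M → Prop
  | final (c : Config M) : c.cnt ≤ B → c.state ∈ M.accepting → AccB M B c
  | exist (c c' : Config M) : c.cnt ≤ B → c.state ∉ M.universal → M.Step c c' →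
      AccB M B c' → AccB M B c
  | univ (c : Config M) : c.cnt ≤ B → c.state ∈ M.universal → (∃ c', M.Step c c') →
      (∀ c', M.Step c c' → AccB M B c') → AccB M B c

/-- The language recognised by `M`. -/
def language (M : CA A) : Language A := {w | M.Acc (M.init w)}

/-- Exactly `t` steps lead from `c` to `c'`. -/
def StepN (M : CA A) : ℕ → Config M → Config M → Prop
  | 0, c, c' => c = c'
  | t + 1, c, c' => ∃ c'', M.Step c c'' ∧ M.StepN t c'' c'

/-- Realtime: in every computation, at most `r` consecutive steps are made while the head stays
on the same input symbol (or on the end-marker). -/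
def Realtime (M : CA A) : Prop :=
  ∃ r : ℕ, ∀ (w : List A) (c c' : Config M) (t : ℕ),
    M.Reach (M.init w) c → M.StepN t c c' → c'.rest = c.rest → t ≤ r

/-- `M` works in strong space `s`. -/
def StrongBound (M : CA A) (s : ℕ → ℕ) : Prop :=
  ∀ (w : List A) (c : Config M), M.Reach (M.init w) c → c.cnt ≤ s w.length

/-- `M` works in middle space `s`. -/
def MiddleBound (M : CA A) (s : ℕ → ℕ) : Prop :=
  ∀ w : List A, w ∈ M.language → ∀ c : Config M, M.Reach (M.init w) c → c.cnt ≤ s w.length

/-- `M` works in weak space `s`. -/
def WeakBound (M : CA A) (s : ℕ → ℕ) : Prop :=
  ∀ w : List A, w ∈ M.language → M.AccB (s w.length) (M.init w)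

end CA

/-- The two modes. -/
inductive Mode
  | realtime
  | oneWay

/-- Membership of a machine in a mode (all our machines are one-way). -/
def Mode.Mem : Mode → ∀ {A : Type}, CA A → Prop
  | .realtime, _, M => M.Realtime
  | .oneWay, _, _ => True

/-- The three space notions. -/
inductive Space
  | weak
  | middle
  | strong

/-- `M` works in space `s` in the given sense. -/
def Space.Bound : Space → ∀ {A : Type}, CA A → (ℕ → ℕ) → Prop
  | .weak, _, M, s => M.WeakBound s
  | .middle, _, M, s => M.MiddleBound s
  | .strong, _, M, s => M.StrongBound s

/-- `f` is a tight space bound for nonregular languages over the alphabet `A`: some nonregular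
language over `A` is recognised by an automaton of the mode in space `O(f)`, and every language
over `A` recognised by an automaton of the mode in space `o(f)` is regular. -/
def TightBound (μ : Mode) (A : Type) (σ : Space) (f : ℕ → ℝ) : Prop :=
  (∃ (M : CA A) (s : ℕ → ℕ), μ.Mem M ∧ σ.Bound M s ∧
      (fun n => (s n : ℝ)) =O[atTop] f ∧ ¬ M.language.IsRegular) ∧
  (∀ (M : CA A) (s : ℕ → ℕ), μ.Mem M → σ.Bound M s →
      (fun n => (s n : ℝ)) =o[atTop] f → M.language.IsRegular)

end Agent.R572.CA
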