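import Pool.Agent.R572.CA.Stm
import Pool.Agent.R572.PD.Sound

/-!
# A realtime alternating one-counter automaton for a nonregular binary language in middle space
`O(log n)` (MP_9ec89f_lc, piece CA-Y)
-/

namespace Agent.R572.CA.B1

open Relation Agent.R572.CA
open Agent.R572.PD.LL (val addc allF allT val_lt val_inj length_addc val_addc_true allF_iff allT_iff
  addr length_addr val_addr)

inductive Mc
  | s0
  | sc (f a : Bool)
  | mU | mD
  | C (c : Bool)
  | W (e : Bool)
  | F (e : Bool)
  | acc
  deriving DecidableEq, Fintype

open Mc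

/-- threads spawned at a mark with data bit `d` -/
def spawn (d : Bool) : List (Mc × Chg) := [(C d, .inc), (W (!d), .same), (mU, .inc)]

/-- moves on the pair `(m, d)`; `z`: counter is zero -/
def macr : Mc → Bool → Bool → Bool → List (Mc × Chg)
  | s0, true, false, _ => (sc true false, .same) :: spawn false
  | s0, _, _, _ => []
  | sc _ _, true, d, _ => (sc false d, .same) :: spawn d
  | sc f a, false, d, _ => if (f && d) = true then [] else [(sc f (a && d), .same)]
  | mU, false, _, _ => [(mU, .inc)]
  | mU, true, _, z => if z = true then [] else [(mD, .dec)]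
  | mD, false, _, z => if z = true then [] else [(mD, .dec)]
  | mD, true, _, z => if z = true then [(acc, .same)] else []
  | C c, false, d, _ => [(C (d && c), .inc), (W (xor d c), .same)]
  | C _, true, _, _ => [(acc, .same)]
  | W e, false, _, _ => [(W e, .same)]
  | W e, true, d, z => if z = true then (if d = e then [(acc, .same)] else []) else [(F e, .dec)]
  | F e, false, d, z => if z = true then (if d = e then [(acc, .same)] else []) else [(F e, .dec)]
  | F _, true, _, _ => [(acc, .same)]
  | acc, _, _, _ => []

/-- moves at the end-marker -/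
def fin : Mc → Bool → List (Mc × Chg)
  | s0, _ => []
  | sc _ a, _ => if a = true then [(acc, .same)] else []
  | mU, _ => [(acc, .same)]
  | mD, z => if z = true then [(acc, .same)] else []
  | C _, _ => [(acc, .same)]
  | W _, _ => [(acc, .same)]
  | F _, _ => [(acc, .same)]
  | acc, _ => []

def tr : Mc × Option Bool → Option Bool → Bool → List ((Mc × Option Bool) × Chg × Bool)
  | (acc, none), _, _ => []
  | (s, none), some m, _ => [((s, some m), .same, true)]
  | (s, none), none, z => (fin s z).map (fun p => ((p.1, none), p.2, true))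
  | (s, some m), some d, z => (macr s m d z).map (fun p => ((p.1, none), p.2, true))
  | (_, some _), none, _ => []

def M : CA Bool where
  Q := Mc × Option Bool
  finQ := inferInstance
  start := (s0, none)
  universal := Set.univ
  accepting := {(acc, none)}
  δ := tr

def Ac (s : Mc) (n : ℕ) (w : List Bool) : Prop := M.Acc ⟨(s, none), n, w⟩

/-- all moves advance -/
theorem tr_true (s : Mc × Option Bool) (a : Option Bool) (z : Bool) :
    ∀ mv ∈ tr s a z, mv.2.2 = true := by
  rcases s with ⟨s, _ | m⟩ <;> rcases a with _ | a <;> cases s <;>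
    simp only [tr, List.mem_map, List.mem_singleton, List.not_mem_nil] <;> intro mv h <;>
    first
      | (obtain ⟨p, _, rfl⟩ := h; rfl)
      | (subst h; rfl)
      | exact h.elim

theorem step_iff (s : Mc × Option Bool) (n : ℕ) (w : List Bool) (c' : Config M) :
    M.Step ⟨s, n, w⟩ c' ↔ ∃ mv ∈ tr s w.head? (decide (n = 0)), ∃ n', mv.2.1.Upd n n' ∧
      c' = ⟨mv.1, n', w.tail⟩ := by
  constructor
  · rintro ⟨q', d, m, n', h1, h2, h3⟩
    have hm : m = true := tr_true _ _ _ _ h1
    subst hm
    exact ⟨_, h1, n', h2, h3⟩
  · rintro ⟨⟨q', d, m⟩, h1, n', h2, h3⟩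
    have hm : m = true := tr_true _ _ _ _ h1
    subst hm
    exact ⟨q', d, true, n', h1, h2, h3⟩

theorem acc_iff (c : Config M) : M.Acc c ↔ c.state = (acc, none) ∨
    ((∃ c', M.Step c c') ∧ ∀ c', M.Step c c' → M.Acc c') := by
  constructor
  · rintro (⟨_, h⟩ | ⟨_, c', h, _, _⟩ | ⟨_, _, h1, h2⟩)
    · left; exact h
    · exact absurd (Set.mem_univ _) h
    · right; exact ⟨h1, h2⟩
  · rintro (h | ⟨h1, h2⟩)
    · exact CA.Acc.final _ h
    · exact CA.Acc.univ _ (Set.mem_univ _) h1 h2

@[simp] theorem Ac_acc (n : ℕ) (w : List Bool) : Ac acc n w ↔ True :=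
  ⟨fun _ => trivial, fun _ => CA.Acc.final _ rfl⟩

/-- application of a change -/
def app : Chg → ℕ → ℕ
  | .dec, n => n - 1
  | .same, n => n
  | .inc, n => n + 1

/-- macro moves are executable -/
theorem macr_upd (s : Mc) (m d : Bool) (n : ℕ) : ∀ mv ∈ macr s m d (decide (n = 0)), ∀ n',
    mv.2.Upd n n' ↔ n' = app mv.2 n := by
  rintro ⟨s', g⟩ h n'
  cases g with
  | same => simp [Chg.Upd, app]
  | inc => simp [Chg.Upd, app]
  | dec =>
    have hn : n ≠ 0 := by
      rintro rfl
      cases s <;> cases m <;> cases d <;> simp [macr, spawn] at h <;>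
        (try split_ifs at h) <;> simp_all
    simp only [Chg.Upd, app]
    omega

theorem fin_upd (s : Mc) (z : Bool) (n : ℕ) : ∀ mv ∈ fin s z, ∀ n',
    mv.2.Upd n n' ↔ n' = app mv.2 n := by
  rintro ⟨s', g⟩ h n'
  have : g = .same := by
    cases s <;> simp [fin] at h <;> (try split_ifs at h) <;> simp_all
  subst this
  simp [Chg.Upd, app]

theorem fin_acc (s : Mc) (z : Bool) : ∀ mv ∈ fin s z, mv.1 = acc := by
  rintro ⟨s', g⟩ h
  cases s <;> simp [fin] at h <;> (try split_ifs at h) <;> simp_all

theorem Ac_pair (s : Mc) (n : ℕ) (m d : Bool) (w : List Bool) :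
    Ac s n (m :: d :: w) ↔ s = acc ∨ (macr s m d (decide (n = 0)) ≠ [] ∧
      ∀ mv ∈ macr s m d (decide (n = 0)), Ac mv.1 (app mv.2 n) w) := by
  by_cases hs : s = acc
  · subst hs; simp
  · have h1 : Ac s n (m :: d :: w) ↔ M.Acc ⟨(s, some m), n, d :: w⟩ := by
      unfold Ac
      rw [acc_iff]
      have hstep : ∀ c', M.Step ⟨(s, none), n, m :: d :: w⟩ c' ↔ c' = ⟨(s, some m), n, d :: w⟩ := by
        intro c'
        rw [step_iff]
        have ht : tr (s, none) (some m) (decide (n = 0)) = [((s, some m), .same, true)] := by
          cases s <;> first | rfl | exact absurd rfl hs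
        simp only [List.head?_cons, ht, List.mem_singleton, exists_eq_left, Chg.Upd,
          List.tail_cons]
      constructor
      · rintro (h | ⟨_, h2⟩)
        · exact absurd (Prod.mk.inj h).1 hs
        · exact h2 _ ((hstep _).2 rfl)
      · intro h
        right
        refine ⟨⟨_, (hstep _).2 rfl⟩, fun c' hc' => ?_⟩
        rw [(hstep _).1 hc']; exact h
    rw [h1, acc_iff]
    simp only [hs, false_or]
    constructor
    · rintro (h | ⟨⟨c', hc'⟩, h2⟩)
      · exact absurd (Prod.mk.inj h).2 (by simp)
      · obtain ⟨mv, hmv, -⟩ := (step_iff _ _ _ _).1 hc'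
        simp only [List.head?_cons, tr, List.mem_map] at hmv
        obtain ⟨p, hp, -⟩ := hmv
        refine ⟨List.ne_nil_of_mem hp, fun mv' hmv' => ?_⟩
        apply h2
        rw [step_iff]
        refine ⟨((mv'.1, none), mv'.2, true), ?_, app mv'.2 n, ?_, rfl⟩
        · simp only [List.head?_cons, tr, List.mem_map]
          exact ⟨mv', hmv', rfl⟩
        · exact (macr_upd s m d n mv' hmv' _).2 rfl
    · rintro ⟨h2, h3⟩
      right
      obtain ⟨mv, hmv⟩ := List.exists_mem_of_ne_nil _ h2
      refine ⟨⟨⟨(mv.1, none), app mv.2 n, w⟩, ?_⟩, ?_⟩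
      · rw [step_iff]
        refine ⟨((mv.1, none), mv.2, true), ?_, app mv.2 n, ?_, rfl⟩
        · simp only [List.head?_cons, tr, List.mem_map]
          exact ⟨mv, hmv, rfl⟩
        · exact (macr_upd s m d n mv hmv _).2 rfl
      · intro c' hc'
        obtain ⟨mv', hmv', n', hn', rfl⟩ := (step_iff _ _ _ _).1 hc'
        simp only [List.head?_cons, tr, List.mem_map] at hmv'
        obtain ⟨p, hp, rfl⟩ := hmv'
        rw [(macr_upd s m d n p hp n').1 hn']
        exact h3 p hp

theorem Ac_nil (s : Mc) (n : ℕ) : Ac s n [] ↔ s = acc ∨ fin s (decide (n = 0)) ≠ [] := by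
  by_cases hs : s = acc
  · subst hs; simp
  · unfold Ac
    rw [acc_iff]
    simp only [hs, false_or]
    have ht : tr (s, none) none (decide (n = 0)) =
        (fin s (decide (n = 0))).map (fun p => ((p.1, none), p.2, true)) := by
      cases s <;> first | rfl | exact absurd rfl hs
    constructor
    · rintro (h | ⟨⟨c', hc'⟩, -⟩)
      · exact absurd (Prod.mk.inj h).1 hs
      obtain ⟨mv, hmv, -⟩ := (step_iff _ _ _ _).1 hc'
      simp only [List.head?_nil, ht, List.mem_map] at hmv
      obtain ⟨p, hp, -⟩ := hmv
      exact List.ne_nil_of_mem hp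
    · intro h
      obtain ⟨mv, hmv⟩ := List.exists_mem_of_ne_nil _ h
      right
      refine ⟨⟨⟨(mv.1, none), app mv.2 n, []⟩, ?_⟩, ?_⟩
      · rw [step_iff]
        refine ⟨((mv.1, none), mv.2, true), ?_, app mv.2 n, ?_, rfl⟩
        · simp only [List.head?_nil, ht, List.mem_map]
          exact ⟨mv, hmv, rfl⟩
        · exact (fin_upd s _ n mv hmv _).2 rfl
      · intro c' hc'
        obtain ⟨mv', hmv', n', hn', rfl⟩ := (step_iff _ _ _ _).1 hc'
        simp only [List.head?_nil, ht, List.mem_map] at hmv'
        obtain ⟨p, hp, rfl⟩ := hmv'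
        simp only
        rw [fin_acc s _ p hp]
        exact CA.Acc.final _ rfl

theorem Ac_single (s : Mc) (n : ℕ) (m : Bool) : Ac s n [m] ↔ s = acc := by
  by_cases hs : s = acc
  · subst hs; simp
  · simp only [hs, iff_false]
    intro h
    unfold Ac at h
    rw [acc_iff] at h
    rcases h with h | ⟨-, h2⟩
    · exact absurd (Prod.mk.inj h).1 hs
    · have ht : tr (s, none) (some m) (decide (n = 0)) = [((s, some m), .same, true)] := by
        cases s <;> first | rfl | exact absurd rfl hs
      have h3 := h2 ⟨(s, some m), n, []⟩ ((step_iff _ _ _ _).2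
        ⟨((s, some m), .same, true), by simp [ht], n, rfl, rfl⟩)
      rw [acc_iff] at h3
      rcases h3 with h3 | ⟨⟨c', hc'⟩, -⟩
      · exact absurd (Prod.mk.inj h3).2 (by simp)
      · obtain ⟨mv, hmv, -⟩ := (step_iff _ _ _ _).1 hc'
        simp [tr] at hmv

/-! ### encoding of blocks -/

def encR : List Bool → List Bool
  | [] => []
  | d :: ds => false :: d :: encR ds

def encW : List (Bool × List Bool) → List Bool
  | [] => []
  | b :: bs => true :: b.1 :: (encR b.2 ++ encW bs)

/-- first data bit and the others -/
def blk (b : Bool × List Bool) : List Bool := b.1 :: b.2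

/-! ### thread mU / mD -/

theorem Ac_mD (bs : List (Bool × List Bool)) (ds : List Bool) : ∀ n,
    Ac mD n (encR ds ++ encW bs) ↔ n = ds.length := by
  induction ds with
  | nil =>
    intro n
    cases bs with
    | nil => simp only [encR, encW, List.nil_append, Ac_nil, fin]; split_ifs with h <;> simp_all
    | cons b bs =>
      simp only [encR, encW, List.nil_append, Ac_pair, macr]
      split_ifs with h <;> simp_all
  | cons d ds ih =>
    intro n
    simp only [encR, List.cons_append, Ac_pair, macr]
    split_ifs with h
    · simp at h; simp [h]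
    · simp only [decide_eq_true_eq] at h
      simp only [reduceCtorEq, ne_eq, List.cons_ne_self, not_false_eq_true, List.mem_singleton,
        forall_eq, true_and, false_or, app, ih, List.length_cons]
      omega

theorem Ac_mU (bs : List (Bool × List Bool)) (ds : List Bool) : ∀ n,
    Ac mU (n + 1) (encR ds ++ encW bs) ↔
      ∀ b ∈ bs.head?, n + ds.length = b.2.length := by
  induction ds with
  | nil =>
    intro n
    cases bs with
    | nil => simp [encR, encW, Ac_nil, fin]
    | cons b bs =>
      simp only [encR, encW, List.nil_append, Ac_pair, macr]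
      simp [app, Ac_mD]
  | cons d ds ih =>
    intro n
    simp only [encR, List.cons_append, Ac_pair, macr]
    simp only [reduceCtorEq, ne_eq, List.cons_ne_self, not_false_eq_true, List.mem_singleton,
        forall_eq, true_and, false_or, app, ih, List.length_cons]
    simp only [Nat.add_assoc, Nat.add_comm 1]

/-! ### threads F, W, C -/

theorem Ac_F (e : Bool) (bs : List (Bool × List Bool)) (ds : List Bool) : ∀ n,
    Ac (F e) n (encR ds ++ encW bs) ↔ ∀ x ∈ ds[n]?, x = e := by
  induction ds with
  | nil =>
    intro n
    cases bs with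
    | nil => simp [encR, encW, Ac_nil, fin]
    | cons b bs => simp [encR, encW, Ac_pair, macr]
  | cons d ds ih =>
    intro n
    simp only [encR, List.cons_append, Ac_pair, macr]
    rcases n with _ | n
    · simp only [decide_true, if_true]
      split_ifs with h <;> simp [h]
    · simp [app, ih]

theorem Ac_W (e : Bool) (bs : List (Bool × List Bool)) (ds : List Bool) (n : ℕ) :
    Ac (W e) n (encR ds ++ encW bs) ↔ ∀ b ∈ bs.head?, ∀ x ∈ (blk b)[n]?, x = e := by
  induction ds with
  | nil =>
    cases bs with
    | nil => simp [encR, encW, Ac_nil, fin]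
    | cons b bs =>
      simp only [encR, encW, List.nil_append, Ac_pair, macr]
      rcases n with _ | n
      · simp only [decide_true, if_true]
        split_ifs with h <;> simp [h, blk]
      · simp [app, Ac_F, blk]
  | cons d ds ih =>
    simp only [encR, List.cons_append, Ac_pair, macr]
    simpa [app] using ih

theorem Ac_C (bs : List (Bool × List Bool)) (ds : List Bool) : ∀ (c : Bool) (n : ℕ),
    Ac (C c) n (encR ds ++ encW bs) ↔
      ∀ b ∈ bs.head?, ∀ j x y, (addc c ds)[j]? = some x → (blk b)[n + j]? = some y → y = x := by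
  induction ds with
  | nil =>
    intro c n
    cases bs with
    | nil => simp [encR, encW, Ac_nil, fin]
    | cons b bs => simp [encR, encW, Ac_pair, macr, addc]
  | cons d ds ih =>
    intro c n
    simp only [encR, List.cons_append, Ac_pair, macr]
    simp only [reduceCtorEq, ne_eq, not_false_eq_true, List.mem_cons, List.not_mem_nil, or_false,
      forall_eq_or_imp, forall_eq, true_and, false_or, app, ih, Ac_W]
    constructor
    · rintro ⟨h1, h2⟩ b hb j x y hx hy
      rcases j with _ | j
      · simp only [addc, List.getElem?_cons_zero, Option.some.injEq] at hx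
        subst hx
        exact h2 b hb y hy
      · simp only [addc, List.getElem?_cons_succ] at hx
        exact h1 b hb j x y hx (by rwa [show n + 1 + j = n + (j + 1) by omega])
    · intro h
      refine ⟨fun b hb j x y hx hy => ?_, fun b hb y hy => ?_⟩
      · exact h b hb (j + 1) x y (by simpa [addc] using hx)
          (by rwa [show n + (j + 1) = n + 1 + j by omega])
      · exact h b hb 0 _ y (by simp [addc]) hy

/-- checks spawned at a block -/
def Chk (b : Bool × List Bool) (bs : List (Bool × List Bool)) : Prop :=
  ∀ b' ∈ bs.head?, blk b' = addc true (blk b)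

theorem spawn_iff (b : Bool × List Bool) (bs : List (Bool × List Bool)) :
    (∀ mv ∈ spawn b.1, Ac mv.1 (app mv.2 0) (encR b.2 ++ encW bs)) ↔ Chk b bs := by
  obtain ⟨d, ds⟩ := b
  simp only [spawn, List.mem_cons, List.not_mem_nil, or_false, forall_eq_or_imp, forall_eq, app,
    Ac_C, Ac_W, Nat.zero_add]
  have hU := Ac_mU bs ds 0
  simp only [Nat.zero_add] at hU
  rw [hU]
  cases bs with
  | nil => simp [Chk]
  | cons b' bs =>
    simp only [List.head?_cons, Option.mem_some, forall_eq', Chk]
    obtain ⟨d', ds'⟩ := b'
    simp only [blk, addc, Bool.xor_true, Bool.and_true]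
    constructor
    · rintro ⟨h1, h2, h3⟩
      have h4 : d' = !d := by simpa using h2
      have h5 : ds' = addc d ds := by
        apply List.ext_getElem?
        intro j
        rcases hy : ds'[j]? with _ | y
        · symm
          rw [List.getElem?_eq_none_iff] at hy ⊢
          rw [length_addc, h3]
          exact hy
        · have hj : j < (addc d ds).length := by
            rw [length_addc, h3]
            by_contra hcon
            rw [List.getElem?_eq_none (by omega)] at hy
            simp at hy
          have hx := List.getElem?_eq_getElem hj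
          rw [hx]
          congr 1
          exact h1 j _ y hx (by rw [Nat.add_comm]; simpa using hy)
      rw [h4, h5]
    · intro h
      obtain ⟨rfl, rfl⟩ := List.cons.inj h
      refine ⟨?_, ?_, (length_addc _ _).symm⟩
      · intro j x y hx hy
        rw [Nat.add_comm] at hy
        simp only [List.getElem?_cons_succ] at hy
        rw [hx] at hy
        exact (Option.some.inj hy).symm
      · simp

/-- scanning predicate -/
def Scan : Bool → Bool → List Bool → List (Bool × List Bool) → Prop
  | f, a, ds, [] => (f = true → allF ds = true) ∧ (a && allT ds) = true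
  | f, _, ds, b :: bs => (f = true → allF ds = true) ∧ Chk b bs ∧ Scan false b.1 b.2 bs

theorem Ac_sc_ds (bs : List (Bool × List Bool)) (ds : List Bool) : ∀ (f a : Bool),
    Ac (sc f a) 0 (encR ds ++ encW bs) ↔ (f = true → allF ds = true) ∧
      Ac (sc f (a && allT ds)) 0 (encW bs) := by
  induction ds with
  | nil => intro f a; simp [encR, allF, allT]
  | cons d ds ih =>
    intro f a
    simp only [encR, List.cons_append, Ac_pair, macr]
    split_ifs with h
    · simp only [Bool.and_eq_true] at h
      simp [h, allF]
    · simp only [reduceCtorEq, ne_eq, List.cons_ne_self, not_false_eq_true, List.mem_singleton,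
        forall_eq, true_and, false_or, app, ih]
      simp only [allF, allT, List.all_cons, Bool.and_assoc]
      cases f <;> cases d <;> simp_all

theorem Ac_sc (bs : List (Bool × List Bool)) : ∀ (f a : Bool) (ds : List Bool),
    Ac (sc f a) 0 (encR ds ++ encW bs) ↔ Scan f a ds bs := by
  induction bs with
  | nil =>
    intro f a ds
    rw [Ac_sc_ds]
    simp only [encW, Ac_nil, fin, Scan]
    split_ifs with h <;> simp [h]
  | cons b bs ih =>
    intro f a ds
    rw [Ac_sc_ds]
    simp only [encW, Ac_pair, macr, Scan]
    have h := spawn_iff b bs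
    have h0 : app Chg.same 0 = 0 := rfl
    simp only [reduceCtorEq, ne_eq, not_false_eq_true, List.mem_cons, forall_eq_or_imp, h0,
      true_and, false_or]
    rw [ih, h]
    tauto

theorem Ac_s0 (b : Bool × List Bool) (bs : List (Bool × List Bool)) :
    Ac s0 0 (encW (b :: bs)) ↔ b.1 = false ∧ Chk b bs ∧ Scan true b.1 b.2 bs := by
  obtain ⟨d, ds⟩ := b
  have h := spawn_iff (d, ds) bs
  cases d with
  | true => simp [encW, Ac_pair, macr]
  | false =>
    simp only [encW, Ac_pair, macr]
    have h0 : app Chg.same 0 = 0 := rfl
    have h1 : (∀ a ∈ spawn false, Ac a.1 (app a.2 0) (encR ds ++ encW bs)) ↔ Chk (false, ds) bs := h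
    simp only [reduceCtorEq, ne_eq, not_false_eq_true, List.mem_cons, forall_eq_or_imp, h0,
      true_and, false_or]
    rw [Ac_sc, h1]
    tauto

end Agent.R572.CA.B1
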