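import Pool.Agent.R572.CA.ExBinary

/-!
# The binary example: soundness, space, realtime, nonregularity
-/

namespace Agent.R572.CA.B1

open Relation Agent.R572.CA
open Agent.R572.PD.LL (val addc allF allT val_lt val_inj length_addc val_addc_true allF_iff allT_iff
  addr length_addr val_addr)

open Mc

/-! ### parsing -/

theorem parse_sc (N : ℕ) : ∀ (w : List Bool), w.length ≤ N → ∀ (f a : Bool) (n : ℕ),
    Ac (sc f a) n w → ∃ (ds : List Bool) (bs : List (Bool × List Bool)),
      w = encR ds ++ encW bs := by
  induction N with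
  | zero =>
    intro w hw f a n _
    have : w = [] := List.eq_nil_of_length_eq_zero (by omega)
    subst this
    exact ⟨[], [], rfl⟩
  | succ N ih =>
    intro w hw f a n h
    rcases w with _ | ⟨m, _ | ⟨d, w⟩⟩
    · exact ⟨[], [], rfl⟩
    · rw [Ac_single] at h; cases h
    · rw [Ac_pair] at h
      rcases h with h | ⟨h1, h2⟩
      · cases h
      · simp only [List.length_cons] at hw
        cases m with
        | false =>
          simp only [macr] at h1 h2
          split_ifs at h1 h2 with hc
          · exact absurd rfl h1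
          · obtain ⟨ds, bs, hw'⟩ := ih w (by omega) _ _ _ (h2 _ List.mem_cons_self)
            exact ⟨d :: ds, bs, by simp [encR, hw']⟩
        | true =>
          simp only [macr] at h1 h2
          obtain ⟨ds, bs, hw'⟩ := ih w (by omega) _ _ _ (h2 _ List.mem_cons_self)
          exact ⟨[], (d, ds) :: bs, by simp [encR, encW, hw']⟩

theorem parse_s0 (w : List Bool) (h : Ac s0 0 w) :
    ∃ (b : Bool × List Bool) (bs : List (Bool × List Bool)), w = encW (b :: bs) := by
  rcases w with _ | ⟨m, _ | ⟨d, w⟩⟩
  · rw [Ac_nil] at h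
    rcases h with h | h
    · cases h
    · exact absurd rfl h
  · rw [Ac_single] at h; cases h
  · rw [Ac_pair] at h
    rcases h with h | ⟨h1, h2⟩
    · cases h
    · cases m with
      | false => exact absurd rfl h1
      | true =>
        cases d with
        | true => exact absurd rfl h1
        | false =>
          simp only [macr] at h2
          obtain ⟨ds, bs, hw'⟩ := parse_sc w.length w le_rfl _ _ _ (h2 _ List.mem_cons_self)
          exact ⟨(false, ds), bs, by simp [encW, hw']⟩

/-! ### counting -/

theorem length_blk (b : Bool × List Bool) : (blk b).length = b.2.length + 1 := rfl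

theorem count (bs : List (Bool × List Bool)) : ∀ (b : Bool × List Bool) (f : Bool) (v : ℕ),
    val (blk b) ≤ v → Chk b bs → Scan f b.1 b.2 bs →
    2 ^ (b.2.length + 1) ≤ v + 1 + bs.length ∧ ∀ b' ∈ bs, b'.2.length = b.2.length := by
  induction bs with
  | nil =>
    intro b f v hv _ hs
    simp only [Scan] at hs
    have h1 : allT (blk b) = true := by
      have := hs.2
      simp only [allT, blk, List.all_cons] at this ⊢
      exact this
    have h2 := (allT_iff _).1 h1
    rw [length_blk] at h2
    refine ⟨?_, by simp⟩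
    simp only [List.length_nil]
    omega
  | cons b' bs ih =>
    intro b f v hv hc hs
    have h1 : blk b' = addc true (blk b) := hc b' (by simp)
    have h2 : b'.2.length = b.2.length := by
      have := congrArg List.length h1
      rw [length_addc, length_blk, length_blk] at this
      omega
    have h3 : val (blk b') ≤ v + 1 := by
      rw [h1, val_addc_true]
      exact (Nat.mod_le _ _).trans (by omega)
    obtain ⟨-, hc', hs'⟩ := hs
    obtain ⟨h4, h5⟩ := ih b' false (v + 1) h3 hc' hs'
    refine ⟨?_, ?_⟩
    · rw [h2] at h4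
      simp only [List.length_cons]
      omega
    · intro b'' hb''
      rcases List.mem_cons.1 hb'' with rfl | h
      · exact h2
      · rw [h5 _ h, h2]

/-! ### height -/

def leadR : List Bool → ℕ
  | false :: _ :: w => leadR w + 1
  | _ => 0

def RunsOK (K : ℕ) : List Bool → Prop
  | m :: d :: w => leadR (m :: d :: w) ≤ K ∧ RunsOK K w
  | _ => True

theorem RunsOK.lead {K : ℕ} {w : List Bool} (h : RunsOK K w) : leadR w ≤ K := by
  rcases w with _ | ⟨m, _ | ⟨d, w⟩⟩
  · simp [leadR]
  · simp [leadR]
  · exact h.1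

theorem leadR_encW (bs : List (Bool × List Bool)) : leadR (encW bs) = 0 := by
  cases bs <;> simp [encW, leadR]

theorem leadR_encR (ds : List Bool) (bs : List (Bool × List Bool)) :
    leadR (encR ds ++ encW bs) = ds.length := by
  induction ds with
  | nil => simp [encR, leadR_encW]
  | cons d ds ih => simp [encR, leadR, ih]

theorem runsOK_encR (K : ℕ) (ds : List Bool) (bs : List (Bool × List Bool))
    (h : RunsOK K (encW bs)) (hd : ds.length ≤ K) : RunsOK K (encR ds ++ encW bs) := by
  induction ds with
  | nil => simpa [encR] using h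
  | cons d ds ih =>
    refine ⟨?_, ih (by simp at hd; omega)⟩
    exact (le_of_eq (leadR_encR (d :: ds) bs)).trans hd

theorem runsOK_encW (K : ℕ) (bs : List (Bool × List Bool)) (h : ∀ b ∈ bs, b.2.length ≤ K) :
    RunsOK K (encW bs) := by
  induction bs with
  | nil => trivial
  | cons b bs ih =>
    refine ⟨by simp [leadR], ?_⟩
    exact runsOK_encR K _ _ (ih (fun b' hb' => h b' (List.mem_cons_of_mem _ hb')))
      (h b List.mem_cons_self)

def hgt (K : ℕ) : Mc → ℕ → List Bool → Prop
  | mU, n, w => n + leadR w ≤ K + 1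
  | C _, n, w => n + leadR w ≤ K + 1
  | s0, n, _ => n = 0
  | sc _ _, n, _ => n = 0
  | _, n, _ => n ≤ K + 1

theorem hgt_le (K : ℕ) (s : Mc) (n : ℕ) (w : List Bool) (h : hgt K s n w) : n ≤ K + 1 := by
  cases s <;> simp only [hgt] at h <;> omega

theorem hgt_macr (K : ℕ) (s : Mc) (n : ℕ) (m d : Bool) (w : List Bool)
    (hw : RunsOK K (m :: d :: w)) (h : hgt K s n (m :: d :: w)) :
    ∀ mv ∈ macr s m d (decide (n = 0)), hgt K mv.1 (app mv.2 n) w := by
  intro mv hmv
  have h2 := hgt_le _ _ _ _ h
  obtain ⟨hw1, hw3⟩ := hw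
  have hw4 := hw3.lead
  cases s <;> cases m <;> cases d <;> simp only [macr, spawn] at hmv <;>
    (try split_ifs at hmv) <;> simp at hmv <;>
    (try rcases hmv with hmv | hmv | hmv | hmv) <;>
    (try rcases hmv with hmv | hmv) <;> (try subst hmv) <;>
    simp only [hgt, leadR, app] at h hw1 ⊢ <;> omega

theorem hgt_fin (K : ℕ) (s : Mc) (n : ℕ) (z : Bool) (h : hgt K s n []) :
    ∀ mv ∈ fin s z, hgt K mv.1 (app mv.2 n) [] := by
  intro mv hmv
  have h2 := hgt_le _ _ _ _ h
  cases s <;> simp only [fin] at hmv <;> (try split_ifs at hmv) <;> simp at hmv <;>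
    (try subst hmv) <;> simp only [hgt, app] <;> omega

/-- invariant of reachable configurations -/
def Inv (K : ℕ) (c : Config M) : Prop :=
  match (c.state : Mc × Option Bool) with
  | (s, none) => RunsOK K c.rest ∧ hgt K s c.cnt c.rest
  | (s, some m) => RunsOK K (m :: c.rest) ∧ hgt K s c.cnt (m :: c.rest)

theorem Inv.le {K : ℕ} {c : Config M} (h : Inv K c) : c.cnt ≤ K + 1 := by
  obtain ⟨⟨s, _ | m⟩, n, w⟩ := c
  · exact hgt_le _ _ _ _ h.2
  · exact hgt_le _ _ _ _ h.2

theorem inv_step (K : ℕ) (c c' : Config M) (h : Inv K c) (hs : M.Step c c') : Inv K c' := by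
  obtain ⟨⟨s, _ | m⟩, n, w⟩ := c
  · obtain ⟨mv, hmv, n', hn', rfl⟩ := (step_iff _ _ _ _).1 hs
    rcases w with _ | ⟨a, w⟩
    · have hmv' : mv ∈ (fin s (decide (n = 0))).map (fun p => ((p.1, none), p.2, true)) := by
        cases s <;> first | exact hmv | simp [tr] at hmv
      obtain ⟨p, hp, rfl⟩ := List.mem_map.1 hmv'
      rw [(fin_upd s _ n p hp n').1 hn']
      exact ⟨trivial, hgt_fin K s n _ h.2 p hp⟩
    · have hmv' : mv = ((s, some a), .same, true) := by
        cases s <;> first | (simpa [tr] using hmv)
      subst hmv'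
      have hn'' : n' = n := hn'
      subst hn''
      exact h
  · obtain ⟨mv, hmv, n', hn', rfl⟩ := (step_iff _ _ _ _).1 hs
    rcases w with _ | ⟨a, w⟩
    · simp [tr] at hmv
    · simp only [List.head?_cons, tr, List.mem_map] at hmv
      obtain ⟨p, hp, rfl⟩ := hmv
      rw [(macr_upd s m a n p hp n').1 hn']
      exact ⟨h.1.2, hgt_macr K s n m a w h.1 h.2 p hp⟩

theorem inv_reach (K : ℕ) (w : List Bool) (hw : RunsOK K w) (c : Config M)
    (hc : M.Reach (M.init w) c) : Inv K c := by
  induction hc with
  | refl => exact ⟨hw, rfl⟩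
  | tail _ hs ih => exact inv_step K _ _ ih hs

/-- analysis of an accepted word -/
theorem accepted (w : List Bool) (h : w ∈ M.language) :
    ∃ K, RunsOK K w ∧ 2 ^ (K + 1) ≤ w.length := by
  have h' : Ac s0 0 w := h
  obtain ⟨b, bs, rfl⟩ := parse_s0 w h'
  obtain ⟨h1, h2, h3⟩ := (Ac_s0 b bs).1 h'
  have hv : val (blk b) ≤ 0 := by
    have h4 : allF b.2 = true := by
      cases bs with
      | nil => exact h3.1 rfl
      | cons b' bs => exact h3.1 rfl
    have h5 := (allF_iff _).1 h4
    simp [blk, val, h1, h5]
  obtain ⟨h6, h7⟩ := count bs b true 0 hv h2 h3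
  refine ⟨b.2.length, ?_, ?_⟩
  · apply runsOK_encW
    intro b' hb'
    rcases List.mem_cons.1 hb' with rfl | h
    · exact le_rfl
    · exact (h7 _ h).le
  · refine h6.trans ?_
    have hlen : ∀ bs : List (Bool × List Bool), bs.length ≤ (encW bs).length := by
      intro bs
      induction bs with
      | nil => simp
      | cons b bs ih =>
        simp only [encW, List.length_cons, List.length_append]
        omega
    have := hlen (b :: bs)
    simp only [List.length_cons] at this
    omega

theorem middle : M.MiddleBound (fun n => Nat.log 2 n + 2) := by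
  intro w hw c hc
  obtain ⟨K, hK, hlen⟩ := accepted w hw
  have h1 := (inv_reach K w hK c hc).le
  have h2 : K + 1 ≤ Nat.log 2 w.length := by
    have h3 := Nat.log_mono_right (b := 2) hlen
    rwa [Nat.log_pow (by norm_num)] at h3
  show c.cnt ≤ Nat.log 2 w.length + 2
  omega

theorem stepN_rest (t : ℕ) : ∀ (c c' : Config M), M.StepN t c c' →
    c'.rest.length = c.rest.length - t := by
  induction t with
  | zero => intro c c' h; cases h; rfl
  | succ t ih =>
    rintro ⟨s, n, w⟩ c' ⟨c1, h1, h2⟩
    obtain ⟨mv, hmv, n', hn', rfl⟩ := (step_iff _ _ _ _).1 h1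
    have := ih _ _ h2
    simp only [List.length_tail] at this
    rw [this]
    simp only
    omega

theorem realtime : M.Realtime := by
  refine ⟨1, ?_⟩
  intro w c c' t _ hst hrest
  rcases t with _ | _ | t
  · omega
  · omega
  · exfalso
    have h1 := stepN_rest _ _ _ hst
    rw [hrest] at h1
    obtain ⟨⟨s, o⟩, n, v⟩ := c
    simp only at h1
    have hv : v = [] := by
      apply List.eq_nil_of_length_eq_zero; omega
    subst hv
    obtain ⟨c1, h2, c2, h3, -⟩ := hst
    obtain ⟨mv, hmv, n', hn', rfl⟩ := (step_iff _ _ _ _).1 h2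
    obtain ⟨mv', hmv', n'', hn'', -⟩ := (step_iff _ _ _ _).1 h3
    rcases o with _ | m
    · have hmv1 : mv ∈ (fin s (decide (n = 0))).map (fun p => ((p.1, none), p.2, true)) := by
        cases s <;> first | exact hmv | simp [tr] at hmv
      obtain ⟨p, hp, rfl⟩ := List.mem_map.1 hmv1
      have h4 := fin_acc s _ p hp
      simp only at hmv'
      rw [h4] at hmv'
      simp [tr] at hmv'
    · simp [tr] at hmv

/-! ### existence of accepted words -/

def toB (l : List Bool) : Bool × List Bool := (l.headI, l.tail)

theorem blk_toB (l : List Bool) (h : l ≠ []) : blk (toB l) = l := by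
  cases l with
  | nil => exact absurd rfl h
  | cons a l => rfl

def seqB (k : ℕ) : ℕ → ℕ → List (Bool × List Bool)
  | _, 0 => []
  | t, m + 1 => toB (addr k t) :: seqB k (t + 1) m

theorem addr_ne (K t : ℕ) : addr (K + 1) t ≠ [] := by
  intro h
  have := length_addr (K + 1) t
  rw [h] at this
  simp at this

theorem seq_ok (K : ℕ) (m : ℕ) : ∀ (t : ℕ) (f : Bool), (f = true → t = 0) →
    t + m + 1 = 2 ^ (K + 1) →
    Chk (toB (addr (K + 1) t)) (seqB (K + 1) (t + 1) m) ∧
      Scan f (toB (addr (K + 1) t)).1 (toB (addr (K + 1) t)).2 (seqB (K + 1) (t + 1) m) := by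
  have hF : ∀ (t : ℕ) (f : Bool), (f = true → t = 0) → f = true →
      allF (toB (addr (K + 1) t)).2 = true := by
    intro t f hf h
    obtain rfl := hf h
    simp [toB, addr, allF]
  induction m with
  | zero =>
    intro t f hf ht
    refine ⟨by simp [Chk, seqB], hF t f hf, ?_⟩
    have h1 : allT (addr (K + 1) t) = true := by
      rw [allT_iff, val_addr, length_addr, Nat.mod_eq_of_lt (by omega)]
      omega
    rw [← blk_toB _ (addr_ne K t)] at h1
    simpa [allT, blk] using h1
  | succ m ih =>
    intro t f hf ht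
    obtain ⟨h1, h2⟩ := ih (t + 1) false (by simp) (by omega)
    refine ⟨?_, hF t f hf, h1, h2⟩
    intro b' hb'
    simp only [seqB, List.head?_cons, Option.mem_some] at hb'
    subst hb'
    rw [blk_toB _ (addr_ne K _), blk_toB _ (addr_ne K _)]
    rfl

def uw (K : ℕ) : List Bool := true :: false :: encR (List.replicate K false)

theorem toB_zero (K : ℕ) : toB (addr (K + 1) 0) = (false, List.replicate K false) := by
  simp [toB, addr, List.replicate_succ]

theorem exists_v (K : ℕ) : ∃ (b : Bool × List Bool) (bs : List (Bool × List Bool)),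
    uw K ++ encW (b :: bs) ∈ M.language ∧ b.2.length = K := by
  obtain ⟨m, hm⟩ : ∃ m, 0 + (m + 1) + 1 = 2 ^ (K + 1) := by
    have : 2 ≤ 2 ^ (K + 1) := by
      calc 2 = 2 ^ 1 := by norm_num
        _ ≤ 2 ^ (K + 1) := Nat.pow_le_pow_right (by norm_num) (by omega)
    exact ⟨2 ^ (K + 1) - 2, by omega⟩
  obtain ⟨h1, h2⟩ := seq_ok K (m + 1) 0 true (fun _ => rfl) hm
  rw [toB_zero] at h1 h2
  refine ⟨toB (addr (K + 1) 1), seqB (K + 1) 2 m, ?_, ?_⟩
  · have h3 : Ac s0 0 (encW ((false, List.replicate K false) :: seqB (K + 1) 1 (m + 1))) :=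
      (Ac_s0 _ _).2 ⟨rfl, h1, h2⟩
    have h4 : encW ((false, List.replicate K false) :: seqB (K + 1) 1 (m + 1)) =
        uw K ++ encW (toB (addr (K + 1) 1) :: seqB (K + 1) 2 m) := by
      simp [encW, uw, seqB]
    rw [h4] at h3
    exact h3
  · simp [toB, length_addr]

theorem uw_len (K : ℕ) (b : Bool × List Bool) (bs : List (Bool × List Bool))
    (h : uw K ++ encW (b :: bs) ∈ M.language) : b.2.length = K := by
  have h' : Ac s0 0 (encW ((false, List.replicate K false) :: b :: bs)) := by
    have h4 : encW ((false, List.replicate K false) :: b :: bs) = uw K ++ encW (b :: bs) := by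
      simp [encW, uw]
    rw [h4]; exact h
  obtain ⟨-, h1, -⟩ := (Ac_s0 _ _).1 h'
  have h2 := congrArg List.length (h1 b (by simp))
  rw [length_addc, length_blk, length_blk] at h2
  simpa using h2

theorem not_regular : ¬ M.language.IsRegular := by
  intro hreg
  have hfin := Language.IsRegular.finite_range_leftQuotient hreg
  have hinj : Function.Injective (fun K => M.language.leftQuotient (uw K)) := by
    intro K K' h
    obtain ⟨b, bs, hcs, hb⟩ := exists_v K'
    have h1 : encW (b :: bs) ∈ M.language.leftQuotient (uw K') := hcs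
    have h2 : M.language.leftQuotient (uw K) = M.language.leftQuotient (uw K') := h
    rw [← h2] at h1
    have h3 := uw_len K b bs h1
    omega
  have hinf := Set.infinite_range_of_injective hinj
  apply hinf
  apply hfin.subset
  rintro _ ⟨K, rfl⟩
  exact ⟨uw K, rfl⟩

end Agent.R572.CA.B1

namespace Agent.R572.CA

theorem stmExBinary : StmExBinary := ⟨B1.M, B1.realtime, B1.middle, B1.not_regular⟩

end Agent.R572.CA
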