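import Pool.Agent.R572.CA.Stm

/-!
# MP_9ec89f_lc, piece CA-X (helper574): the unary example

The language `{a^n : n = 2^j + 2j}`.
-/

namespace Agent.R572.CA

open Relation Asymptotics Filter

namespace ExU

/-! ### Arithmetic -/

mutual
/-- `T m r`: `m < r` and `2^m` divides `r - m` -/
def T : ℕ → ℕ → Bool
  | _, 0 => false
  | 0, _ + 1 => true
  | m + 1, r + 1 => T m r && !B m r

/-- `B m r`: the bit `m` of `r - m` -/
def B : ℕ → ℕ → Bool
  | _, 0 => false
  | 0, r + 1 => !B 0 r
  | m + 1, r + 1 => xor (B (m + 1) r) (T m r && !B m r)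
end

theorem testBit_succ (k j : ℕ) :
    Nat.testBit (k + 1) j = xor (k.testBit j) (decide (2 ^ j ∣ k + 1)) := by
  rw [Nat.testBit_eq_decide_div_mod_eq, Nat.testBit_eq_decide_div_mod_eq, Nat.succ_div]
  by_cases h : 2 ^ j ∣ k + 1
  · simp only [h, if_true, decide_true, Bool.xor_true]
    by_cases h2 : k / 2 ^ j % 2 = 1
    · have h3 : ¬ ((k / 2 ^ j + 1) % 2 = 1) := by omega
      rw [decide_eq_true h2, decide_eq_false h3]; rfl
    · have h3 : (k / 2 ^ j + 1) % 2 = 1 := by omega
      rw [decide_eq_false h2, decide_eq_true h3]; rfl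
  · simp [h]

theorem closed (r : ℕ) : ∀ m, (T m r = decide (m < r ∧ 2 ^ m ∣ r - m)) ∧
    (B m r = (decide (m ≤ r) && (r - m).testBit m)) := by
  induction r with
  | zero =>
    intro m
    constructor
    · simp [T]
    · simp [B]
  | succ r ih =>
    intro m
    cases m with
    | zero =>
      have h := (ih 0).2
      constructor
      · simp [T]
      · rw [B, h]
        have := testBit_succ r 0
        simp only [Nat.zero_le, decide_true, Bool.true_and, Nat.sub_zero, pow_zero, one_dvd,
          Bool.xor_true] at this ⊢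
        exact this.symm
    | succ m =>
      have h1 := ih m
      have h2 := ih (m + 1)
      have hT : T (m + 1) (r + 1) = decide (m + 1 < r + 1 ∧ 2 ^ (m + 1) ∣ r + 1 - (m + 1)) := by
        rw [T, h1.1, h1.2]
        have e : r + 1 - (m + 1) = r - m := by omega
        rw [e]
        by_cases hmr : m < r
        · have hle : m ≤ r := hmr.le
          have hlt : m + 1 < r + 1 := by omega
          simp only [hmr, hle, hlt, true_and, decide_true, Bool.true_and]
          rw [Nat.testBit_eq_decide_div_mod_eq]
          by_cases hd : 2 ^ m ∣ r - m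
          · obtain ⟨c, hc⟩ := hd
            have hpos : 0 < 2 ^ m := by positivity
            have hdiv : (r - m) / 2 ^ m = c := by rw [hc]; exact Nat.mul_div_cancel_left _ hpos
            rw [hdiv]
            have hd' : 2 ^ m ∣ r - m := ⟨c, hc⟩
            have hiff : 2 ^ (m + 1) ∣ r - m ↔ ¬ (c % 2 = 1) := by
              rw [hc, pow_succ, Nat.mul_dvd_mul_iff_left hpos]
              omega
            by_cases hc2 : c % 2 = 1
            · simp [hd', hc2, hiff]
            · simp [hd', hc2, hiff]
          · have hd2 : ¬ 2 ^ (m + 1) ∣ r - m := fun h => hd ((pow_dvd_pow 2 (Nat.le_succ m)).trans h)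
            simp [hd, hd2]
        · have hlt : ¬ (m + 1 < r + 1) := by omega
          simp [hmr]
      refine ⟨hT, ?_⟩
      have hB : B (m + 1) (r + 1) = xor (B (m + 1) r) (T (m + 1) (r + 1)) := by
        rw [B, T]
      rw [hB, hT, h2.2]
      by_cases hmr : m + 1 ≤ r
      · obtain ⟨k, hk⟩ : ∃ k, r = m + 1 + k := ⟨r - (m + 1), by omega⟩
        have e1 : r - (m + 1) = k := by omega
        have e2 : r + 1 - (m + 1) = k + 1 := by omega
        have hlt : m + 1 < r + 1 := by omega
        have hle : m + 1 ≤ r + 1 := by omega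
        rw [e1, e2, testBit_succ]
        simp only [hmr, hlt, hle, decide_true, Bool.true_and, true_and]
      · have hlt : ¬ (m + 1 < r + 1) := by omega
        have e2 : r + 1 - (m + 1) = 0 := by omega
        rw [e2]
        simp only [hmr, hlt, decide_false, Bool.false_and, false_and, Nat.zero_testBit,
          Bool.and_false, Bool.xor_false]

theorem T_iff (m r : ℕ) : T m r = true ↔ m < r ∧ 2 ^ m ∣ r - m := by
  rw [(closed r m).1]; simp

theorem first (m r : ℕ) : (1 ≤ r ∧ T m r = true ∧ ∀ r' < r, T m r' = false) ↔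
    r = m + 2 ^ m := by
  have hpos : 0 < 2 ^ m := by positivity
  have hT : T m (m + 2 ^ m) = true := by
    rw [T_iff]
    exact ⟨by omega, by rw [Nat.add_sub_cancel_left]⟩
  constructor
  · rintro ⟨_, h1, h2⟩
    rw [T_iff] at h1
    have h3 : 2 ^ m ≤ r - m := Nat.le_of_dvd (by omega) h1.2
    by_contra hne
    have h4 := h2 (m + 2 ^ m) (by omega)
    rw [hT] at h4
    exact absurd h4 (by simp)
  · rintro rfl
    refine ⟨by omega, hT, ?_⟩
    intro r' hr'
    rw [Bool.eq_false_iff]
    intro h
    rw [T_iff] at h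
    have h3 : 2 ^ m ≤ r' - m := Nat.le_of_dvd (by omega) h.2
    omega

/-! ### The machine -/

inductive St
  | G
  | E
  | W
  | X (t : Bool)
  | P (t b : Bool)
  | U (t1 b1 t2 b2 : Bool)
  | acc
  deriving DecidableEq, Fintype

open St

def dl : St → Option Unit → Bool → List (St × Chg × Bool)
  | G, some _, _ => [(G, .inc, true), (E, .same, false)]
  | G, none, _ => []
  | E, some _, _ => [(X true, .same, false), (W, .same, true)]
  | E, none, _ => []
  | W, some _, _ => [(X false, .same, false), (W, .same, true)]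
  | W, none, _ => [(acc, .same, false)]
  | X t, _, _ => [(P t false, .same, false), (P t true, .same, false)]
  | P false false, none, _ => [(acc, .same, false)]
  | P false true, none, _ => []
  | P true _, none, _ => []
  | P true b, some _, true => [(P false (!b), .same, true), (P true (!b), .same, true)]
  | P false _, some _, true => []
  | P true b, some _, false => [(U true false false (!b), .same, false),
      (U true false true (!b), .same, false)]
  | P false b, some _, false => [(U false false false b, .same, false),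
      (U false false true b, .same, false), (U false true false b, .same, false),
      (U false true true b, .same, false), (U true true false b, .same, false),
      (U true true true b, .same, false)]
  | U t1 b1 t2 b2, some _, false => [(P t1 b1, .dec, true), (P t2 b2, .same, true)]
  | U _ _ _ _, some _, true => []
  | U _ _ _ _, none, _ => []
  | acc, _, _ => []

/-- the universal states -/
def isU : St → Bool
  | E => true
  | W => true
  | U _ _ _ _ => true
  | _ => false

@[reducible] def M : CA Unit where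
  Q := St
  finQ := inferInstance
  start := G
  universal := {q | isU q = true}
  accepting := {acc}
  δ := dl

def cfg (q : St) (m r : ℕ) : Config M := ⟨q, m, List.replicate r ()⟩

theorem step_iff (q : St) (m r : ℕ) (c' : Config M) : M.Step (cfg q m r) c' ↔
    ∃ p ∈ dl q (if r = 0 then none else some ()) (decide (m = 0)), ∃ n', p.2.1.Upd m n' ∧
      c' = cfg p.1 n' (if p.2.2 then r - 1 else r) := by
  have h1 : (List.replicate r ()).head? = if r = 0 then none else some () := by
    rw [List.head?_replicate]
  have h2 : ∀ b : Bool, (if b then (List.replicate r ()).tail else List.replicate r ()) =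
      List.replicate (if b then r - 1 else r) () := by
    intro b
    cases b
    · rfl
    · simp [List.tail_replicate]
  constructor
  · rintro ⟨q', d, b, n', hm, hu, hc⟩
    refine ⟨(q', d, b), ?_, n', hu, ?_⟩
    · rw [← h1]; exact hm
    · rw [hc]
      show (⟨q', n', if b then (List.replicate r ()).tail else List.replicate r ()⟩ : Config M) = _
      rw [h2 b]; rfl
  · rintro ⟨⟨q', d, b⟩, hm, n', hu, hc⟩
    refine ⟨q', d, b, n', ?_, hu, ?_⟩
    · show (q', d, b) ∈ dl q (List.replicate r ()).head? (decide (m = 0))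
      rw [h1]; exact hm
    · rw [hc]
      show _ = (⟨q', n', if b then (List.replicate r ()).tail else List.replicate r ()⟩ : Config M)
      rw [h2 b]; rfl

theorem acc_ex (q : St) (hq : isU q = false) (hq2 : q ≠ acc) (m r : ℕ) :
    M.Acc (cfg q m r) ↔
    ∃ p ∈ dl q (if r = 0 then none else some ()) (decide (m = 0)), ∃ n', p.2.1.Upd m n' ∧
      M.Acc (cfg p.1 n' (if p.2.2 then r - 1 else r)) := by
  constructor
  · intro h
    cases h with
    | final _ h => exact absurd h hq2
    | exist _ c' _ hs ha =>
      obtain ⟨p, hp, n', hu, rfl⟩ := (step_iff q m r c').mp hs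
      exact ⟨p, hp, n', hu, ha⟩
    | univ _ hu _ _ =>
      have h2 : isU q = true := hu
      rw [hq] at h2
      exact absurd h2 (by simp)
  · rintro ⟨p, hp, n', hu, ha⟩
    refine CA.Acc.exist _ _ ?_ ((step_iff q m r _).mpr ⟨p, hp, n', hu, rfl⟩) ha
    show ¬ (isU q = true)
    rw [hq]; simp

theorem acc_un (q : St) (hq : isU q = true) (hq2 : q ≠ acc) (m r : ℕ) :
    M.Acc (cfg q m r) ↔
    (∃ p ∈ dl q (if r = 0 then none else some ()) (decide (m = 0)), ∃ n', p.2.1.Upd m n') ∧
    ∀ p ∈ dl q (if r = 0 then none else some ()) (decide (m = 0)), ∀ n', p.2.1.Upd m n' →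
      M.Acc (cfg p.1 n' (if p.2.2 then r - 1 else r)) := by
  constructor
  · intro h
    cases h with
    | final _ h => exact absurd h hq2
    | exist _ c' h _ _ => exact absurd hq h
    | univ _ _ he ha =>
      obtain ⟨c', hs⟩ := he
      obtain ⟨p, hp, n', hu, _⟩ := (step_iff q m r c').mp hs
      exact ⟨⟨p, hp, n', hu⟩, fun p hp n' hu =>
        ha _ ((step_iff q m r _).mpr ⟨p, hp, n', hu, rfl⟩)⟩
  · rintro ⟨⟨p, hp, n', hu⟩, ha⟩
    refine CA.Acc.univ _ hq ⟨_, (step_iff q m r _).mpr ⟨p, hp, n', hu, rfl⟩⟩ ?_
    intro c' hs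
    obtain ⟨p, hp, n', hu, rfl⟩ := (step_iff q m r c').mp hs
    exact ha p hp n' hu

theorem acc_acc (m r : ℕ) : M.Acc (cfg acc m r) := CA.Acc.final _ rfl

theorem acc_U (t1 b1 t2 b2 : Bool) (m r : ℕ) : M.Acc (cfg (U t1 b1 t2 b2) (m + 1) (r + 1)) ↔
    M.Acc (cfg (P t1 b1) m r) ∧ M.Acc (cfg (P t2 b2) (m + 1) r) := by
  rw [acc_un _ rfl (by simp)]
  simp [dl, Chg.Upd]

theorem acc_P (r : ℕ) : ∀ (m : ℕ) (t b : Bool), M.Acc (cfg (P t b) m r) ↔
    T m r = t ∧ B m r = b := by
  induction r with
  | zero =>
    intro m t b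
    rw [acc_ex _ rfl (by simp)]
    cases t <;> cases b <;> simp [dl, Chg.Upd, T, B, acc_acc]
  | succ r ih =>
    intro m t b
    rw [acc_ex _ rfl (by simp)]
    cases m with
    | zero =>
      cases t with
      | false => simp [dl, T]
      | true =>
        simp only [Nat.add_eq_zero_iff, one_ne_zero, and_false, if_false, decide_true, dl,
          List.mem_cons, List.not_mem_nil, or_false, exists_eq_or_imp, exists_eq_left, Chg.Upd,
          if_true, Nat.add_sub_cancel, ih, T, B, true_and]
        cases T 0 r <;> cases B 0 r <;> cases b <;> simp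
    | succ m =>
      have hT : T (m + 1) (r + 1) = (T m r && !B m r) := by rw [T]
      have hB : B (m + 1) (r + 1) = xor (B (m + 1) r) (T m r && !B m r) := by rw [B]
      rw [hT, hB]
      cases t with
      | false =>
        simp only [Nat.add_eq_zero_iff, one_ne_zero, and_false, if_false, decide_false, dl,
          List.mem_cons, List.not_mem_nil, or_false, exists_eq_or_imp, exists_eq_left, Chg.Upd,
          Bool.false_eq_true, acc_U, ih]
        cases T m r <;> cases B m r <;> cases T (m + 1) r <;> cases B (m + 1) r <;> cases b <;> simp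
      | true =>
        simp only [Nat.add_eq_zero_iff, one_ne_zero, and_false, if_false, decide_false, dl,
          List.mem_cons, List.not_mem_nil, or_false, exists_eq_or_imp, exists_eq_left, Chg.Upd,
          Bool.false_eq_true, acc_U, ih]
        cases T m r <;> cases B m r <;> cases T (m + 1) r <;> cases B (m + 1) r <;> cases b <;> simp

theorem acc_X (t : Bool) (m r : ℕ) : M.Acc (cfg (X t) m r) ↔ T m r = t := by
  rw [acc_ex _ rfl (by simp)]
  simp only [dl, List.mem_cons, List.not_mem_nil, or_false, exists_eq_or_imp, exists_eq_left,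
    Chg.Upd, Bool.false_eq_true, if_false, acc_P]
  cases B m r <;> simp

theorem acc_W (r : ℕ) (m : ℕ) : M.Acc (cfg W m r) ↔ ∀ r' ≤ r, T m r' = false := by
  induction r with
  | zero =>
    rw [acc_un _ rfl (by simp)]
    simp [dl, Chg.Upd, acc_acc, T]
  | succ r ih =>
    rw [acc_un _ rfl (by simp)]
    have h : (∀ r' ≤ r + 1, T m r' = false) ↔ T m (r + 1) = false ∧ ∀ r' ≤ r, T m r' = false := by
      constructor
      · intro h
        exact ⟨h _ le_rfl, fun r' hr' => h r' (by omega)⟩
      · rintro ⟨h1, h2⟩ r' hr'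
        rcases Nat.lt_or_ge r' (r + 1) with h3 | h3
        · exact h2 r' (by omega)
        · have : r' = r + 1 := by omega
          rw [this]; exact h1
    rw [h]
    simp [dl, Chg.Upd, acc_X, ih]

theorem acc_E (m r : ℕ) : M.Acc (cfg E m r) ↔ r = m + 2 ^ m := by
  rw [← first, acc_un _ rfl (by simp)]
  cases r with
  | zero => simp [dl]
  | succ r =>
    have h : (∀ r' < r + 1, T m r' = false) ↔ ∀ r' ≤ r, T m r' = false := by
      constructor
      · intro h r' hr'; exact h r' (by omega)
      · intro h r' hr'; exact h r' (by omega)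
    rw [h]
    simp [dl, Chg.Upd, acc_X, acc_W]

theorem acc_G (r : ℕ) : ∀ m, M.Acc (cfg G m r) ↔ ∃ j, r = j + (m + j) + 2 ^ (m + j) := by
  induction r with
  | zero =>
    intro m
    rw [acc_ex _ rfl (by simp)]
    constructor
    · simp [dl]
    · rintro ⟨j, hj⟩
      have : 0 < 2 ^ (m + j) := by positivity
      omega
  | succ r ih =>
    intro m
    rw [acc_ex _ rfl (by simp)]
    have h : (∃ p ∈ dl G (if r + 1 = 0 then none else some ()) (decide (m = 0)), ∃ n',
        p.2.1.Upd m n' ∧ M.Acc (cfg p.1 n' (if p.2.2 then r + 1 - 1 else r + 1))) ↔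
        M.Acc (cfg G (m + 1) r) ∨ M.Acc (cfg E m (r + 1)) := by
      simp [dl, Chg.Upd]
    rw [h, ih, acc_E]
    constructor
    · rintro (⟨j, hj⟩ | hj)
      · refine ⟨j + 1, ?_⟩
        have e : m + (j + 1) = m + 1 + j := by omega
        rw [e]; omega
      · exact ⟨0, by simpa using hj⟩
    · rintro ⟨j, hj⟩
      cases j with
      | zero => right; simpa using hj
      | succ j =>
        left
        refine ⟨j, ?_⟩
        have e : m + (j + 1) = m + 1 + j := by omega
        rw [e] at hj; omega

theorem rest_eq (w : List Unit) : w = List.replicate w.length () := by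
  rw [List.eq_replicate_iff]
  exact ⟨rfl, fun _ _ => rfl⟩

theorem mem_lang (w : List Unit) : w ∈ M.language ↔ ∃ j, w.length = 2 ^ j + 2 * j := by
  have h : M.init w = cfg G 0 w.length := by
    show (⟨G, 0, w⟩ : Config M) = ⟨G, 0, List.replicate w.length ()⟩
    rw [← rest_eq]
  show M.Acc (M.init w) ↔ _
  rw [h, acc_G]
  constructor
  · rintro ⟨j, hj⟩
    refine ⟨j, ?_⟩
    rw [Nat.zero_add] at hj
    omega
  · rintro ⟨j, hj⟩
    refine ⟨j, ?_⟩
    rw [Nat.zero_add]
    omega

/-! ### Weak space -/

theorem dl_mono (q : St) (hq : q ≠ G) (a : Option Unit) (z : Bool) (p : St × Chg × Bool)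
    (hp : p ∈ dl q a z) : p.1 ≠ G ∧ ∀ n n', p.2.1.Upd n n' → n' ≤ n := by
  have key : ∀ L : List (St × Chg × Bool), (∀ p ∈ L, p.1 ≠ G ∧ p.2.1 ≠ Chg.inc) → p ∈ L →
      p.1 ≠ G ∧ ∀ n n', p.2.1.Upd n n' → n' ≤ n := by
    intro L hL hpL
    obtain ⟨h1, h2⟩ := hL p hpL
    refine ⟨h1, ?_⟩
    intro n n' hu
    cases hc : p.2.1 with
    | dec => rw [hc] at hu; simp only [Chg.Upd] at hu; omega
    | same => rw [hc] at hu; simp only [Chg.Upd] at hu; omega
    | inc => exact absurd hc h2
  apply key _ _ hp
  rcases q with _ | _ | _ | t | ⟨t, b⟩ | ⟨t1, b1, t2, b2⟩ | _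
  · exact absurd rfl hq
  · cases a <;> simp [dl]
  · cases a <;> simp [dl]
  · simp [dl]
  · cases t <;> cases b <;> cases a <;> cases z <;> simp [dl]
  · cases a <;> cases z <;> simp [dl]
  · simp [dl]

theorem step_mono {c c' : Config M} (h : M.Step c c') (hc : c.state ≠ G) :
    c'.state ≠ G ∧ c'.cnt ≤ c.cnt := by
  obtain ⟨q', d, b, n', hm, hu, rfl⟩ := h
  have := dl_mono c.state hc _ _ _ hm
  exact ⟨this.1, this.2 _ _ hu⟩

theorem accB_of (K : ℕ) {c : Config M} (h : M.Acc c) : c.state ≠ G → c.cnt ≤ K →
    CA.AccB M K c := by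
  induction h with
  | final c h => exact fun _ hk => CA.AccB.final c hk h
  | exist c c' hu hs _ ih =>
    intro hc hk
    have := step_mono hs hc
    exact CA.AccB.exist c c' hk hu hs (ih this.1 (this.2.trans hk))
  | univ c hu he _ ih =>
    intro hc hk
    refine CA.AccB.univ c hk hu he ?_
    intro c' hs
    have := step_mono hs hc
    exact ih c' hs this.1 (this.2.trans hk)

theorem accB_G (K j : ℕ) : ∀ m r, m + j ≤ K → r = j + (m + j) + 2 ^ (m + j) →
    CA.AccB M K (cfg G m r) := by
  induction j with
  | zero =>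
    intro m r hK hr
    have h1 : M.Acc (cfg E m r) := by rw [acc_E]; simpa using hr
    have h2 : CA.AccB M K (cfg E m r) := accB_of K h1 (by simp [cfg]) (by simpa [cfg] using hK)
    refine CA.AccB.exist _ _ (by simpa [cfg] using hK) ?_ ((step_iff G m r _).mpr ?_) h2
    · show ¬ (isU G = true)
      simp [isU]
    · have hr0 : r ≠ 0 := by
        have : 0 < 2 ^ (m + 0) := by positivity
        omega
      refine ⟨(E, .same, false), ?_, m, rfl, rfl⟩
      simp [dl, hr0]
  | succ j ih =>
    intro m r hK hr
    have hpos : 0 < 2 ^ (m + (j + 1)) := by positivity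
    have hr0 : r ≠ 0 := by omega
    have h2 : CA.AccB M K (cfg G (m + 1) (r - 1)) := by
      apply ih (m + 1) (r - 1) (by omega)
      have e : m + (j + 1) = m + 1 + j := by omega
      rw [e] at hr; omega
    refine CA.AccB.exist _ _ ?_ ?_ ((step_iff G m r _).mpr ?_) h2
    · show m ≤ K
      omega
    · show ¬ (isU G = true)
      simp [isU]
    · refine ⟨(G, .inc, true), ?_, m + 1, rfl, rfl⟩
      simp [dl, hr0]

theorem weak : M.WeakBound (fun n => Nat.log 2 n + 1) := by
  intro w hw
  obtain ⟨j, hj⟩ := (mem_lang w).mp hw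
  have h : M.init w = cfg G 0 w.length := by
    show (⟨G, 0, w⟩ : Config M) = ⟨G, 0, List.replicate w.length ()⟩
    rw [← rest_eq]
  rw [h]
  apply accB_G _ j 0 w.length
  · have h1 : j ≤ Nat.log 2 w.length := by
      apply Nat.le_log_of_pow_le (by norm_num)
      omega
    show 0 + j ≤ Nat.log 2 w.length + 1
    omega
  · rw [Nat.zero_add]; omega

/-! ### Realtime -/

/-- rank of a state: decreases in stay steps -/
def rk : St → ℕ
  | G => 5
  | E => 4
  | W => 4
  | X _ => 3
  | P _ _ => 2
  | U _ _ _ _ => 1
  | acc => 0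

theorem dl_rk (q : St) (a : Option Unit) (z : Bool) (p : St × Chg × Bool)
    (hp : p ∈ dl q a z) : (p.2.2 = true ∧ a ≠ none) ∨ (p.2.2 = false ∧ rk p.1 < rk q) := by
  revert p
  rcases q with _ | _ | _ | t | ⟨t, b⟩ | ⟨t1, b1, t2, b2⟩ | _
  · cases a <;> simp [dl, rk]
  · cases a <;> simp [dl, rk]
  · cases a <;> simp [dl, rk]
  · simp [dl, rk]
  · cases t <;> cases b <;> cases a <;> cases z <;> simp [dl, rk]
  · cases a <;> cases z <;> simp [dl, rk]
  · simp [dl]

theorem step_rk {c c' : Config M} (h : M.Step c c') :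
    c'.rest.length < c.rest.length ∨ (c'.rest = c.rest ∧ rk c'.state < rk c.state) := by
  obtain ⟨q', d, b, n', hm, hu, rfl⟩ := h
  rcases dl_rk c.state _ _ _ hm with ⟨h1, h2⟩ | ⟨h1, h2⟩
  · left
    simp only at h1
    subst h1
    cases hr : c.rest with
    | nil => rw [hr] at h2; exact absurd rfl h2
    | cons a w => simp
  · right
    simp only at h1 h2
    subst h1
    exact ⟨by simp, h2⟩

theorem stepN_rk (t : ℕ) : ∀ c c' : Config M, M.StepN t c c' →
    c'.rest.length < c.rest.length ∨ (c'.rest = c.rest ∧ t ≤ rk c.state) := by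
  induction t with
  | zero =>
    intro c c' h
    have : c = c' := h
    subst this
    exact Or.inr ⟨rfl, Nat.zero_le _⟩
  | succ t ih =>
    rintro c c' ⟨d, hs, h⟩
    rcases step_rk hs with h1 | ⟨h1, h2⟩
    · left
      rcases ih d c' h with h3 | ⟨h3, _⟩
      · omega
      · rw [h3]; exact h1
    · rcases ih d c' h with h3 | ⟨h3, h4⟩
      · left; rw [← h1]; exact h3
      · right; exact ⟨h3.trans h1, by omega⟩

theorem realtime : M.Realtime := by
  refine ⟨5, ?_⟩
  intro w c c' t _ ht hrest
  rcases stepN_rk t c c' ht with h | ⟨_, h⟩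
  · rw [hrest] at h; omega
  · refine h.trans ?_
    cases c.state <;> simp [rk]

/-! ### Not regular -/

theorem not_mem (j j' : ℕ) (hj : j < j') (k : ℕ) :
    2 ^ j' + 2 * j' + (2 ^ j + 2) ≠ 2 ^ k + 2 * k := by
  intro h
  have h1 : 2 ^ j < 2 ^ j' := Nat.pow_lt_pow_right (by norm_num) hj
  have h0 : 0 < 2 ^ j := by positivity
  rcases Nat.lt_or_ge j' k with h2 | h2
  · have h3 : 2 ^ (j' + 1) ≤ 2 ^ k := Nat.pow_le_pow_right (by norm_num) h2
    rw [pow_succ] at h3
    omega
  · have h3 : 2 ^ k ≤ 2 ^ j' := Nat.pow_le_pow_right (by norm_num) h2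
    omega

theorem not_regular : ¬ M.language.IsRegular := by
  intro h
  have hf := h.finite_range_leftQuotient
  have key : ∀ j j' : ℕ, j < j' →
      M.language.leftQuotient (List.replicate (2 ^ j + 2 * j) ()) ≠
        M.language.leftQuotient (List.replicate (2 ^ j' + 2 * j') ()) := by
    intro j j' hj he
    have h1 : List.replicate (2 ^ j + 2) () ∈
        M.language.leftQuotient (List.replicate (2 ^ j + 2 * j) ()) := by
      show List.replicate (2 ^ j + 2 * j) () ++ List.replicate (2 ^ j + 2) () ∈ M.language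
      rw [mem_lang]
      refine ⟨j + 1, ?_⟩
      rw [List.length_append, List.length_replicate, List.length_replicate, pow_succ]
      omega
    rw [he] at h1
    have h2 : List.replicate (2 ^ j' + 2 * j') () ++ List.replicate (2 ^ j + 2) () ∈
      M.language := h1
    rw [mem_lang] at h2
    obtain ⟨k, hk⟩ := h2
    rw [List.length_append, List.length_replicate, List.length_replicate] at hk
    exact not_mem j j' hj k hk
  have hinj : Function.Injective
      (fun j : ℕ => M.language.leftQuotient (List.replicate (2 ^ j + 2 * j) ())) := by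
    intro j j' he
    rcases lt_trichotomy j j' with h | h | h
    · exact absurd he (key j j' h)
    · exact h
    · exact absurd he.symm (key j' j h)
  apply Set.infinite_range_of_injective hinj
  apply hf.subset
  rintro _ ⟨k, rfl⟩
  exact ⟨_, rfl⟩

end ExU

/-- Piece CA-X. -/
theorem stmExUnary : StmExUnary := ⟨ExU.M, ExU.realtime, ExU.weak, ExU.not_regular⟩

end Agent.R572.CA
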