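import Pool.Agent.R572.CA.Stm

/-!
# MP_9ec89f_lc, pieces CA-S and CA-U: lower bounds for strong space and unary middle space
-/

namespace Agent.R572.CA

open Relation Asymptotics Filter

namespace LowerS

theorem ev {s : ℕ → ℕ} (h : (fun n => (s n : ℝ)) =o[atTop] (fun n : ℕ => (n : ℝ))) (K : ℕ) :
    ∃ n0, ∀ n, n0 ≤ n → K * s n ≤ n := by
  have hK : (0 : ℝ) < 1 / ((K : ℝ) + 1) := by positivity
  have h1 := h.def hK
  obtain ⟨n0, hn0⟩ := eventually_atTop.1 h1
  refine ⟨n0, fun n hn => ?_⟩
  have h2 := hn0 n hn
  rw [Real.norm_natCast, Real.norm_natCast, one_div, inv_mul_eq_div, le_div_iff₀ (by positivity)]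
    at h2
  have h3 : s n * (K + 1) ≤ n := by exact_mod_cast h2
  nlinarith [h3, Nat.zero_le (s n)]

theorem len_rep {A : Type} (x u y : List A) (t : ℕ) :
    (x ++ (List.replicate t u).flatten ++ y).length = x.length + t * u.length + y.length := by
  simp [Nat.add_assoc]

theorem unit_eq {v w : List Unit} (h : v.length = w.length) : v = w := by
  induction v generalizing w with
  | nil => cases w with
    | nil => rfl
    | cons _ _ => simp at h
  | cons a v ih => cases w with
    | nil => simp at h
    | cons b w =>
      have h1 : v.length = w.length := by simpa using h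
      rw [ih h1]

theorem reg_of_bdd {A : Type} [Finite A] (L : Language A) (C : ℕ)
    (h : ∀ w ∈ L, w.length ≤ C) : L.IsRegular := by
  refine Language.IsRegular.of_finite_range_leftQuotient ?_
  have h1 : {l : List A | l.length ≤ C}.Finite := List.finite_length_le A C
  refine ((h1.image L.leftQuotient).union (Set.finite_singleton (0 : Language A))).subset ?_
  rintro _ ⟨x, rfl⟩
  by_cases hx : x.length ≤ C
  · left; exact ⟨x, hx, rfl⟩
  · right
    ext v
    constructor
    · intro hv
      have h2 : x ++ v ∈ L := hv
      have h3 := h _ h2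
      rw [List.length_append] at h3
      omega
    · intro hv
      exact absurd hv (Language.notMem_zero v)

end LowerS

open LowerS in
/-- Piece CA-S. -/
theorem stmStrong_of (hP : StmPump) (hR : StmReg) : StmStrong := by
  intro A _ M s hs ho
  obtain ⟨N, hN⟩ := hP A M
  by_cases hb : ∀ (w : List A) (c : Config M), M.Reach (M.init w) c → c.cnt ≤ N
  · exact hR A M N fun w c hc _ => hb w c hc
  · exfalso
    push Not at hb
    obtain ⟨w, c, hc, hcN⟩ := hb
    obtain ⟨x, u, y, q, i, e, he, hw, -, hl⟩ := hN w c hc hcN
    have h1 : ∀ t : ℕ, t ≤ s (x.length + t * u.length + y.length) := by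
      intro t
      have h2 := hs _ _ (hl t y rfl)
      rw [len_rep] at h2
      have h3 : i + t * e ≤ s (x.length + t * u.length + y.length) := h2
      nlinarith [h3, he, Nat.zero_le t, Nat.zero_le i]
    rcases Nat.eq_zero_or_pos u.length with h0 | h0
    · have h2 := h1 (s (x.length + y.length) + 1)
      rw [h0, Nat.mul_zero, Nat.add_zero] at h2
      exact absurd h2 (Nat.not_succ_le_self _)
    · obtain ⟨n0, hn0⟩ := ev ho (x.length + y.length + u.length + 1)
      have h2 := h1 (n0 + 1)
      have h3 := hn0 (x.length + (n0 + 1) * u.length + y.length) (by nlinarith)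
      have h4 : (x.length + y.length + u.length + 1) * (n0 + 1) ≤
          x.length + (n0 + 1) * u.length + y.length := (Nat.mul_le_mul_left _ h2).trans h3
      nlinarith [h4, Nat.zero_le (x.length * n0), Nat.zero_le (y.length * n0)]

open LowerS in
/-- Piece CA-U. -/
theorem stmUnary_of (hP : StmPump) (hR : StmReg) : StmUnary := by
  intro M s hs ho
  obtain ⟨N, hN⟩ := hP Unit M
  by_cases hb : ∀ (w : List Unit) (c : Config M), M.Reach (M.init w) c → c.rest ≠ [] → c.cnt ≤ N
  · exact hR Unit M N hb
  · push Not at hb
    obtain ⟨w, c, hc, hcr, hcN⟩ := hb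
    obtain ⟨x, u, y, q, i, e, he, hw, hsuf, hl⟩ := hN w c hc hcN
    have hy : y ≠ [] := by
      rintro rfl
      exact hcr (List.suffix_nil.1 hsuf)
    have h1 : ∀ w' ∈ M.language, ∀ t : ℕ, x.length + t * u.length + 1 ≤ w'.length →
        t ≤ s w'.length := by
      intro w' hw' t ht
      set k := w'.length - (x.length + t * u.length) with hk
      have hk1 : 1 ≤ k := by omega
      have hyh : (List.replicate k ()).head? = y.head? := by
        obtain ⟨k', hk'⟩ : ∃ k', k = k' + 1 := ⟨k - 1, by omega⟩
        rw [hk']
        cases y with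
        | nil => exact absurd rfl hy
        | cons b y => rfl
      have h2 := hl t (List.replicate k ()) hyh
      have h3 : w' = x ++ (List.replicate t u).flatten ++ List.replicate k () := by
        apply unit_eq
        rw [len_rep, List.length_replicate]
        omega
      rw [← h3] at h2
      have h4 : i + t * e ≤ s w'.length := hs w' hw' _ h2
      nlinarith [h4, he, Nat.zero_le t, Nat.zero_le i]
    rcases Nat.eq_zero_or_pos u.length with h0 | h0
    · refine reg_of_bdd _ x.length fun w' hw' => ?_
      by_contra hlt
      have h2 := h1 w' hw' (s w'.length + 1) (by rw [h0, Nat.mul_zero]; omega)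
      omega
    · obtain ⟨n0, hn0⟩ := ev ho (u.length + 1)
      refine reg_of_bdd _ (n0 + (u.length + 1) * (u.length + x.length + 2) + 1) fun w' hw' => ?_
      by_contra hlt
      have hn : n0 ≤ w'.length := by
        have := Nat.zero_le ((u.length + 1) * (u.length + x.length + 2))
        omega
      set t := (w'.length - x.length - 1) / u.length with ht
      have hx : x.length + 1 ≤ w'.length := by nlinarith
      have h5 : t * u.length ≤ w'.length - x.length - 1 := Nat.div_mul_le_self _ _
      have h6 : w'.length - x.length - 1 < u.length * (t + 1) := Nat.lt_mul_div_succ _ h0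
      have h2 := h1 w' hw' t (by omega)
      have h3 := hn0 _ hn
      have h7 : (u.length + 1) * t ≤ w'.length := (Nat.mul_le_mul_left _ h2).trans h3
      have h8 : w'.length < u.length * (t + 1) + x.length + 1 := by omega
      have h9 : t < u.length + x.length + 1 := by nlinarith
      nlinarith [h8, h9, hlt, Nat.zero_le n0, h0]

end Agent.R572.CA
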