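import Pool.Agent.R572.CA.Stm

/-!
# MP_9ec89f_lc, piece CA-P (helper574): pumping of the counter
-/

namespace Agent.R572.CA

open Relation Asymptotics Filter

namespace Pump

variable {A : Type}

theorem head_app {u y y' : List A} (h : y.head? = y'.head?) : (u ++ y).head? = (u ++ y').head? := by
  cases u with
  | nil => exact h
  | cons a u => rfl

/-- reachability where all source counters are at least `k` -/
def RG (M : CA A) (k : ℕ) (c c' : Config M) : Prop :=
  ReflTransGen (fun a b => M.Step a b ∧ k ≤ a.cnt) c c'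

theorem RG.reach {M : CA A} {k : ℕ} {c c' : Config M} (h : RG M k c c') : M.Reach c c' :=
  ReflTransGen.mono (fun _ _ h => h.1) _ _ h

theorem RG.mono {M : CA A} {k l : ℕ} (hkl : l ≤ k) {c c' : Config M} (h : RG M k c c') :
    RG M l c c' :=
  ReflTransGen.mono (fun _ _ h => ⟨h.1, hkl.trans h.2⟩) _ _ h

theorem upd_shift {d : Chg} {n n' : ℕ} (h : d.Upd n n') (D : ℕ) : d.Upd (n + D) (n' + D) := by
  cases d
  · simp only [Chg.Upd] at h ⊢; omega
  · simp only [Chg.Upd] at h ⊢; omega
  · simp only [Chg.Upd] at h ⊢; omega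

theorem suffix {M : CA A} {c c' : Config M} (h : M.Reach c c') :
    ∃ u, c.rest = u ++ c'.rest ∧ ∀ y'', y''.head? = c'.rest.head? →
      M.Reach ⟨c.state, c.cnt, u ++ y''⟩ ⟨c'.state, c'.cnt, y''⟩ := by
  unfold CA.Reach at h
  induction h using ReflTransGen.head_induction_on with
  | refl => exact ⟨[], rfl, fun y _ => ReflTransGen.refl⟩
  | @head c0 c1 hs hr ih =>
    obtain ⟨u1, e, hu⟩ := ih
    obtain ⟨q', d, m, n', e2, e1, e3⟩ := hs
    subst e3
    cases m with
    | false =>
      have e' : c0.rest = u1 ++ c'.rest := by simpa using e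
      refine ⟨u1, e', fun y'' hy => ?_⟩
      refine ReflTransGen.head ⟨q', d, false, n', ?_, e1, rfl⟩ (hu y'' hy)
      have h1 : (u1 ++ y'').head? = c0.rest.head? := by rw [e']; exact head_app hy
      rw [h1]; exact e2
    | true =>
      have e' : c0.rest.tail = u1 ++ c'.rest := by simpa using e
      cases hc : c0.rest with
      | nil =>
        rw [hc] at e'
        have h1 := List.append_eq_nil_iff.1 e'.symm
        refine ⟨[], by rw [h1.2]; rfl, fun y'' hy => ?_⟩
        have hy0 : y'' = [] := by
          rw [h1.2] at hy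
          exact List.head?_eq_none_iff.1 hy
        subst hy0
        have h2 := hu [] hy
        rw [h1.1] at h2
        refine ReflTransGen.head ⟨q', d, true, n', ?_, e1, rfl⟩ h2
        rw [hc] at e2; exact e2
      | cons a t =>
        rw [hc] at e'
        have e'' : t = u1 ++ c'.rest := e'
        refine ⟨a :: u1, by rw [e'']; rfl, fun y'' hy => ?_⟩
        refine ReflTransGen.head ⟨q', d, true, n', ?_, e1, rfl⟩ (hu y'' hy)
        rw [hc] at e2; exact e2

/-- the same with a shift of the counter -/
theorem shift {M : CA A} {k : ℕ} (hk : 1 ≤ k) {c c' : Config M} (h : RG M k c c') :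
    ∃ u, c.rest = u ++ c'.rest ∧ ∀ (y'' : List A) (D : ℕ), y''.head? = c'.rest.head? →
      M.Reach ⟨c.state, c.cnt + D, u ++ y''⟩ ⟨c'.state, c'.cnt + D, y''⟩ := by
  unfold RG at h
  induction h using ReflTransGen.head_induction_on with
  | refl => exact ⟨[], rfl, fun y _ _ => ReflTransGen.refl⟩
  | @head c0 c1 hs hr ih =>
    obtain ⟨u1, e, hu⟩ := ih
    obtain ⟨⟨q', d, m, n', e2, e1, e3⟩, hge⟩ := hs
    have hz : ∀ D : ℕ, decide (c0.cnt + D = 0) = decide (c0.cnt = 0) := by
      intro D
      have h1 : ¬ (c0.cnt + D = 0) := by omega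
      have h2 : ¬ (c0.cnt = 0) := by omega
      rw [decide_eq_false h1, decide_eq_false h2]
    subst e3
    cases m with
    | false =>
      have e' : c0.rest = u1 ++ c'.rest := by simpa using e
      refine ⟨u1, e', fun y'' D hy => ?_⟩
      refine ReflTransGen.head ⟨q', d, false, n' + D, ?_, upd_shift e1 D, rfl⟩ (hu y'' D hy)
      have h1 : (u1 ++ y'').head? = c0.rest.head? := by rw [e']; exact head_app hy
      rw [h1, hz D]; exact e2
    | true =>
      have e' : c0.rest.tail = u1 ++ c'.rest := by simpa using e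
      cases hc : c0.rest with
      | nil =>
        rw [hc] at e'
        have h1 := List.append_eq_nil_iff.1 e'.symm
        refine ⟨[], by rw [h1.2]; rfl, fun y'' D hy => ?_⟩
        have hy0 : y'' = [] := by
          rw [h1.2] at hy
          exact List.head?_eq_none_iff.1 hy
        subst hy0
        have h2 := hu [] D hy
        rw [h1.1] at h2
        refine ReflTransGen.head ⟨q', d, true, n' + D, ?_, upd_shift e1 D, rfl⟩ h2
        rw [hz D]
        rw [hc] at e2; exact e2
      | cons a t =>
        rw [hc] at e'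
        have e'' : t = u1 ++ c'.rest := e'
        refine ⟨a :: u1, by rw [e'']; rfl, fun y'' D hy => ?_⟩
        refine ReflTransGen.head ⟨q', d, true, n' + D, ?_, upd_shift e1 D, rfl⟩ (hu y'' D hy)
        rw [hz D]
        rw [hc] at e2; exact e2

theorem step_cnt {M : CA A} {c c' : Config M} (h : M.Step c c') : c'.cnt ≤ c.cnt + 1 := by
  obtain ⟨q', d, m, n', _, e1, e3⟩ := h
  subst e3
  cases d
  · simp only [Chg.Upd] at e1 ⊢; omega
  · simp only [Chg.Upd] at e1 ⊢; omega
  · simp only [Chg.Upd] at e1 ⊢; omega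

/-- last visit -/
theorem last {M : CA A} {c0 c1 : Config M} (h : M.Reach c0 c1) (i : ℕ) (h0 : c0.cnt ≤ i) :
    i ≤ c1.cnt → ∃ c', c'.cnt = i ∧ M.Reach c0 c' ∧ RG M i c' c1 := by
  unfold CA.Reach at h
  induction h with
  | refl => exact fun h1 => ⟨c0, by omega, ReflTransGen.refl, ReflTransGen.refl⟩
  | @tail b c hr hs ih =>
    intro h1
    by_cases hb : i ≤ b.cnt
    · obtain ⟨c', e1, e2, e3⟩ := ih hb
      exact ⟨c', e1, e2, ReflTransGen.tail e3 ⟨hs, hb⟩⟩
    · have h2 := step_cnt hs
      exact ⟨c, by omega, ReflTransGen.tail hr hs, ReflTransGen.refl⟩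

/-- the chain of last visits -/
theorem chain {M : CA A} {c0 : Config M} (h0 : c0.cnt = 0) (m : ℕ) :
    ∀ c1 : Config M, M.Reach c0 c1 → c1.cnt = m → ∃ f : ℕ → Config M, f m = c1 ∧
      (∀ i ≤ m, (f i).cnt = i ∧ M.Reach c0 (f i)) ∧ ∀ i < m, RG M i (f i) (f (i + 1)) := by
  induction m with
  | zero =>
    intro c1 hr hc
    refine ⟨fun _ => c1, rfl, fun i hi => ⟨?_, hr⟩, fun i hi => absurd hi (by omega)⟩
    rw [hc]; omega
  | succ m ih =>
    intro c1 hr hc
    obtain ⟨c', e1, e2, e3⟩ := last hr m (by omega) (by omega)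
    obtain ⟨f, f1, f2, f3⟩ := ih c' e2 e1
    refine ⟨fun i => if i = m + 1 then c1 else f i, by simp, ?_, ?_⟩
    · intro i hi
      by_cases h : i = m + 1
      · simp only [h, if_true]
        exact ⟨hc, hr⟩
      · simp only [h, if_false]
        exact f2 i (by omega)
    · intro i hi
      by_cases h : i = m
      · subst h
        have hne : ¬ (i = i + 1) := by omega
        simp only [hne, if_false, if_true]
        rw [f1]
        exact e3
      · have hne : ¬ (i = m + 1) := by omega
        have hne2 : ¬ (i + 1 = m + 1) := by omega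
        simp only [hne, hne2, if_false]
        exact f3 i (by omega)

theorem chain_RG {M : CA A} {f : ℕ → Config M} {m : ℕ}
    (h : ∀ i < m, RG M i (f i) (f (i + 1))) (i : ℕ) (j : ℕ) (hij : i ≤ j) (hj : j ≤ m) :
    RG M i (f i) (f j) := by
  induction j, hij using Nat.le_induction with
  | base => exact ReflTransGen.refl
  | succ j hij ih =>
    exact ReflTransGen.trans (ih (by omega)) (RG.mono hij (h j (by omega)))

end Pump

open Pump in
/-- Piece CA-P. -/
theorem stmPump : StmPump := by
  intro A _ M
  classical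
  have := M.finQ
  have := Fintype.ofFinite M.Q
  have := Fintype.ofFinite A
  refine ⟨Fintype.card (M.Q × Option A), ?_⟩
  intro w c hr hN
  obtain ⟨f, f1, f2, f3⟩ := chain (c0 := M.init w) rfl c.cnt c hr rfl
  -- pigeonhole
  obtain ⟨a, b, hab, heq⟩ := Fintype.exists_ne_map_eq_of_card_lt
    (fun i : Fin c.cnt => ((f (i + 1)).state, (f (i + 1)).rest.head?)) (by simpa using hN)
  obtain ⟨i, j, hi, hij, hj, hst, hhd⟩ : ∃ i j : ℕ, 1 ≤ i ∧ i < j ∧ j ≤ c.cnt ∧
      (f i).state = (f j).state ∧ (f i).rest.head? = (f j).rest.head? := by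
    simp only [Prod.mk.injEq] at heq
    rcases lt_trichotomy (a : ℕ) (b : ℕ) with h | h | h
    · exact ⟨a + 1, b + 1, by omega, by omega, by omega, heq.1, heq.2⟩
    · exact absurd (Fin.ext h) hab
    · exact ⟨b + 1, a + 1, by omega, by omega, by omega, heq.1.symm, heq.2.symm⟩
  obtain ⟨hci, hri⟩ := f2 i (by omega)
  obtain ⟨hcj, hrj⟩ := f2 j hj
  obtain ⟨x, hx, hx2⟩ := suffix hri
  have hRG := chain_RG f3 i j hij.le hj
  obtain ⟨u, hu, hu2⟩ := shift hi hRG
  have hjc := chain_RG f3 j c.cnt hj le_rfl
  rw [f1] at hjc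
  obtain ⟨u', hu', _⟩ := suffix hjc.reach
  refine ⟨x, u, (f j).rest, (f i).state, i, j - i, by omega, ?_, ⟨u', hu'.symm⟩, ?_⟩
  · have h1 : w = x ++ (f i).rest := hx
    rw [h1, hu, List.append_assoc]
  · intro t
    induction t with
    | zero =>
      intro y' hy
      have h1 := hx2 y' (by rw [hy, hhd])
      rw [hci] at h1
      simp only [List.replicate_zero, List.flatten_nil, List.append_nil, Nat.zero_mul, Nat.add_zero]
      exact h1
    | succ t ih =>
      intro y' hy
      have h1 : (u ++ y').head? = (f j).rest.head? := by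
        rw [← hhd, hu]
        exact head_app hy
      have h2 := ih (u ++ y') h1
      have h3 := hu2 y' (t * (j - i)) hy
      rw [hci, hcj] at h3
      have e1 : x ++ (List.replicate (t + 1) u).flatten ++ y' =
          x ++ (List.replicate t u).flatten ++ (u ++ y') := by
        rw [List.replicate_succ', List.flatten_append]
        simp [List.append_assoc]
      have e2 : i + (t + 1) * (j - i) = j + t * (j - i) := by
        rw [Nat.add_mul, Nat.one_mul]; omega
      rw [e1, e2]
      rw [← hst] at h3
      exact ReflTransGen.trans h2 h3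

end Agent.R572.CA
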