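import Pool.Agent.R572.CA.Stm

/-!
# MP_9ec89f_lc, piece CA-T: realtime automata work in strong linear space
-/

namespace Agent.R572.CA

open Relation Asymptotics Filter

namespace RT

variable {A : Type}

theorem stepN_tail {M : CA A} {c' c'' : Config M} (h : M.Step c' c'') :
    ∀ (j : ℕ) (c : Config M), M.StepN j c c' → M.StepN (j + 1) c c'' := by
  intro j
  induction j with
  | zero =>
    intro c hc
    have hc' : c = c' := hc
    subst hc'
    exact ⟨c'', h, rfl⟩
  | succ j ih =>
    rintro c ⟨d, h1, h2⟩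
    exact ⟨d, h1, ih d h2⟩

theorem upd_le' {d : Chg} {n n' : ℕ} (h : d.Upd n n') : n' ≤ n + 1 := by
  cases d <;> simp only [Chg.Upd] at h <;> omega

theorem inv {M : CA A} {r : ℕ}
    (hr : ∀ (w : List A) (c c' : Config M) (t : ℕ),
      M.Reach (M.init w) c → M.StepN t c c' → c'.rest = c.rest → t ≤ r)
    (w : List A) {c : Config M} (h : M.Reach (M.init w) c) :
    ∃ (c0 : Config M) (j : ℕ), M.Reach (M.init w) c0 ∧ M.StepN j c0 c ∧ c.rest = c0.rest ∧
      c0.cnt + (r + 1) * c0.rest.length ≤ (r + 1) * w.length ∧ c.cnt ≤ c0.cnt + j := by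
  unfold CA.Reach at h
  induction h with
  | refl =>
    refine ⟨M.init w, 0, ReflTransGen.refl, rfl, rfl, ?_, ?_⟩
    · simp [CA.init]
    · simp
  | @tail c c' h1 h2 ih =>
    obtain ⟨c0, j, g1, g2, g3, g4, g5⟩ := ih
    have hj := hr w c0 c j g1 g2 g3
    have hcnt : c'.cnt ≤ c.cnt + 1 := by
      obtain ⟨q', d, m, n', e1, e2, e3⟩ := h2
      rw [e3]; exact upd_le' e2
    by_cases he : c'.rest = c.rest
    · exact ⟨c0, j + 1, g1, stepN_tail h2 j c0 g2, he.trans g3, g4, by omega⟩
    · have hlen : c'.rest.length + 1 = c.rest.length := by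
        obtain ⟨q', d, m, n', e1, e2, e3⟩ := h2
        cases m with
        | false => rw [e3] at he; exact absurd rfl he
        | true =>
          rw [e3] at he ⊢
          cases hc : c.rest with
          | nil => rw [hc] at he; exact absurd rfl he
          | cons a t => simp
      refine ⟨c', 0, ReflTransGen.tail h1 h2, rfl, rfl, ?_, by simp⟩
      have h3 : c0.rest.length = c'.rest.length + 1 := by rw [hlen, g3]
      rw [h3] at g4
      nlinarith [g4, hj, g5, hcnt]

end RT

open RT in
/-- Piece CA-T. -/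
theorem stmRealtime : StmRealtime := by
  rintro A M ⟨r, hr⟩
  refine ⟨r + 1, fun w c hc => ?_⟩
  obtain ⟨c0, j, g1, g2, g3, g4, g5⟩ := inv hr w hc
  have hj := hr w c0 c j g1 g2 g3
  show c.cnt ≤ (r + 1) * (w.length + 1)
  nlinarith [g4, hj, g5, Nat.zero_le ((r + 1) * c0.rest.length)]

end Agent.R572.CA
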