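import Pool.Agent.R572.CA.Stm

/-!
# MP_9ec89f_lc, piece CA-R: bounded counter before the end-marker gives a regular language
-/

namespace Agent.R572.CA

open Relation Asymptotics Filter

namespace Reg

variable {A : Type}

/-- the accepted pairs (state, counter value at most `B + 1`) in front of `v` -/
def Av (M : CA A) (B : ℕ) (v : List A) : Set (M.Q × ℕ) :=
  {p | p.2 ≤ B + 1 ∧ M.Acc ⟨p.1, p.2, v⟩}

theorem upd_le {d : Chg} {n n' : ℕ} (h : d.Upd n n') : n' ≤ n + 1 := by
  cases d <;> simp only [Chg.Upd] at h <;> omega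

theorem key {M : CA A} {B : ℕ}
    (hB : ∀ (w : List A) (c : Config M), M.Reach (M.init w) c → c.rest ≠ [] → c.cnt ≤ B)
    {v v' : List A} (h : Av M B v ⊆ Av M B v') (w : List A) (c : Config M)
    (a : A) (u1 : List A) (hr : c.rest = a :: u1 ++ v) (hR : M.Reach (M.init w) c)
    (q' : M.Q) (d : Chg) (m : Bool) (n' : ℕ)
    (h1 : (q', d, m) ∈ M.δ c.state c.rest.head? (decide (c.cnt = 0))) (h2 : d.Upd c.cnt n')
    (hA : M.Acc ⟨q', n', if m then c.rest.tail else c.rest⟩)
    (ih : ∀ u, u ≠ [] → (if m then c.rest.tail else c.rest) = u ++ v →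
      M.Reach (M.init w) ⟨q', n', if m then c.rest.tail else c.rest⟩ → M.Acc ⟨q', n', u ++ v'⟩) :
    M.Acc ⟨q', n', if m then (a :: u1 ++ v').tail else (a :: u1 ++ v')⟩ := by
  have hR' : M.Reach (M.init w) ⟨q', n', if m then c.rest.tail else c.rest⟩ :=
    ReflTransGen.tail hR ⟨q', d, m, n', h1, h2, rfl⟩
  cases m with
  | false =>
    exact ih (a :: u1) (by simp) (by simpa using hr) hR'
  | true =>
    have e1 : (if true = true then c.rest.tail else c.rest) = u1 ++ v := by
      rw [if_pos rfl, hr]; rfl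
    cases u1 with
    | nil =>
      rw [e1] at hA
      have hc : c.cnt ≤ B := hB w c hR (by rw [hr]; simp)
      have h3 : (q', n') ∈ Av M B v := ⟨(upd_le h2).trans (by omega), hA⟩
      exact (h h3).2
    | cons b u2 =>
      exact ih (b :: u2) (by simp) e1 hR'

theorem acc_app {M : CA A} {B : ℕ}
    (hB : ∀ (w : List A) (c : Config M), M.Reach (M.init w) c → c.rest ≠ [] → c.cnt ≤ B)
    {v v' : List A} (h : Av M B v ⊆ Av M B v') (w : List A) {c : Config M} (hc : M.Acc c) :
    ∀ u, u ≠ [] → c.rest = u ++ v → M.Reach (M.init w) c →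
      M.Acc ⟨c.state, c.cnt, u ++ v'⟩ := by
  induction hc with
  | final c h1 => intro u _ _ _; exact .final _ h1
  | exist c c' h1 h2 h3 ih =>
    intro u hu hr hR
    cases u with
    | nil => exact absurd rfl hu
    | cons a u1 =>
      obtain ⟨q', d, m, n', e1, e2, e3⟩ := h2
      subst e3
      refine .exist _ ⟨q', n', if m then (a :: u1 ++ v').tail else (a :: u1 ++ v')⟩ h1
        ⟨q', d, m, n', ?_, e2, rfl⟩ (key hB h w c a u1 hr hR q' d m n' e1 e2 h3 ih)
      rw [hr] at e1; exact e1
  | univ c h1 h2 h3 ih =>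
    intro u hu hr hR
    cases u with
    | nil => exact absurd rfl hu
    | cons a u1 =>
      refine .univ _ h1 ?_ ?_
      · obtain ⟨c', q', d, m, n', e1, e2, e3⟩ := h2
        refine ⟨⟨q', n', if m then (a :: u1 ++ v').tail else (a :: u1 ++ v')⟩,
          q', d, m, n', ?_, e2, rfl⟩
        rw [hr] at e1; exact e1
      · rintro c'' ⟨q', d, m, n', e1, e2, e3⟩
        subst e3
        have e1' : (q', d, m) ∈ M.δ c.state c.rest.head? (decide (c.cnt = 0)) := by
          rw [hr]; exact e1
        have hs : M.Step c ⟨q', n', if m then c.rest.tail else c.rest⟩ :=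
          ⟨q', d, m, n', e1', e2, rfl⟩
        exact key hB h w c a u1 hr hR q' d m n' e1' e2 (h3 _ hs) (ih _ hs)

theorem fin_range (M : CA A) (B : ℕ) : (Set.range (Av M B)).Finite := by
  have := M.finQ
  have h1 : ((Set.univ : Set M.Q) ×ˢ Set.Iic (B + 1)).Finite :=
    Set.finite_univ.prod (Set.finite_Iic (B + 1))
  refine h1.powerset.subset ?_
  rintro _ ⟨v, rfl⟩ ⟨q, n⟩ hp
  exact ⟨Set.mem_univ _, hp.1⟩

end Reg

open Reg in
/-- Piece CA-R. -/
theorem stmReg : StmReg := by
  intro A _ M B hB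
  refine Language.IsRegular.of_finite_range_leftQuotient ?_
  have h1 := (fin_range M B).powerset
  refine (h1.image fun T => ({v | Av M B v ∈ T} : Language A)).subset ?_
  rintro _ ⟨x, rfl⟩
  refine ⟨{S | ∃ v, S = Av M B v ∧ M.Acc (M.init (x ++ v))}, ?_, ?_⟩
  · rintro _ ⟨v, rfl, _⟩
    exact ⟨v, rfl⟩
  · ext v
    constructor
    · rintro ⟨v', h2, h3⟩
      show M.Acc (M.init (x ++ v))
      cases x with
      | nil =>
        have h4 : (M.start, 0) ∈ Av M B v' := ⟨Nat.zero_le _, h3⟩
        rw [← h2] at h4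
        exact h4.2
      | cons a x =>
        exact acc_app hB h2.symm.subset (a :: x ++ v') h3 (a :: x) (by simp) rfl
          ReflTransGen.refl
    · intro h2
      exact ⟨v, rfl, h2⟩

end Agent.R572.CA
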