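import Pool.Agent.R572.CA.Defs

/-!
# MP_9ec89f_lc: statements of the independent pieces
-/

namespace Agent.R572.CA

open Relation Asymptotics Filter

/-- CA-P: pumping of the counter. -/
def StmPump : Prop :=
  ∀ (A : Type) [Finite A] (M : CA A), ∃ N : ℕ, ∀ (w : List A) (c : Config M),
    M.Reach (M.init w) c → N < c.cnt →
    ∃ (x u y : List A) (q : M.Q) (i e : ℕ), 1 ≤ e ∧ w = x ++ u ++ y ∧ c.rest <:+ y ∧
      ∀ (t : ℕ) (y' : List A), y'.head? = y.head? →
        M.Reach (M.init (x ++ (List.replicate t u).flatten ++ y')) ⟨q, i + t * e, y'⟩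

/-- CA-R: if the counter is bounded before the end-marker is scanned, the language is regular. -/
def StmReg : Prop :=
  ∀ (A : Type) [Finite A] (M : CA A) (B : ℕ),
    (∀ (w : List A) (c : Config M), M.Reach (M.init w) c → c.rest ≠ [] → c.cnt ≤ B) →
    M.language.IsRegular

/-- CA-S: strong mode lower bound. -/
def StmStrong : Prop :=
  ∀ (A : Type) [Finite A] (M : CA A) (s : ℕ → ℕ), M.StrongBound s →
    (fun n => (s n : ℝ)) =o[atTop] (fun n : ℕ => (n : ℝ)) → M.language.IsRegular

/-- CA-U: middle mode lower bound for the unary alphabet. -/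
def StmUnary : Prop :=
  ∀ (M : CA Unit) (s : ℕ → ℕ), M.MiddleBound s →
    (fun n => (s n : ℝ)) =o[atTop] (fun n : ℕ => (n : ℝ)) → M.language.IsRegular

/-- CA-W: weak mode lower bound. -/
def StmWeak : Prop :=
  ∀ (A : Type) [Finite A] (M : CA A) (s : ℕ → ℕ), M.WeakBound s →
    (fun n => (s n : ℝ)) =o[atTop] (fun n : ℕ => Real.log (n : ℝ)) → M.language.IsRegular

/-- CA-T: realtime automata work in strong linear space. -/
def StmRealtime : Prop :=
  ∀ (A : Type) (M : CA A), M.Realtime → ∃ C : ℕ, M.StrongBound (fun n => C * (n + 1))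

/-- CA-X: the unary example. -/
def StmExUnary : Prop :=
  ∃ M : CA Unit, M.Realtime ∧ M.WeakBound (fun n => Nat.log 2 n + 1) ∧ ¬ M.language.IsRegular

/-- CA-Y: the binary example (helper572). -/
def StmExBinary : Prop :=
  ∃ M : CA Bool, M.Realtime ∧ M.MiddleBound (fun n => Nat.log 2 n + 2) ∧ ¬ M.language.IsRegular

/-- The full statement. -/
def Main : Prop :=
  ∀ μ : Mode,
    TightBound μ Unit .weak (fun n => Real.log (n : ℝ)) ∧
    TightBound μ Bool .weak (fun n => Real.log (n : ℝ)) ∧
    TightBound μ Unit .middle (fun n => (n : ℝ)) ∧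
    TightBound μ Bool .middle (fun n => Real.log (n : ℝ)) ∧
    TightBound μ Unit .strong (fun n => (n : ℝ)) ∧
    TightBound μ Bool .strong (fun n => (n : ℝ))

/-- CA-A: assembly. -/
def StmAssembly : Prop :=
  StmStrong → StmUnary → StmWeak → StmRealtime → StmExUnary → StmExBinary → Main

end Agent.R572.CA
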