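import Pool.Agent.R572.CA.Stm

/-!
# MP_9ec89f_lc, piece CA-W (helper574): the weak mode lower bound
-/

namespace Agent.R572.CA

open Relation Asymptotics Filter

variable {A : Type} {M : CA A}

namespace Weak

lemma accB_cnt {B : ℕ} {c : Config M} (h : CA.AccB M B c) : c.cnt ≤ B := by
  cases h with
  | final _ h _ => exact h
  | exist _ _ h _ _ _ => exact h
  | univ _ h _ _ _ => exact h

lemma accB_mono {B B' : ℕ} (hB : B ≤ B') {c : Config M} (h : CA.AccB M B c) :
    CA.AccB M B' c := by
  induction h with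
  | final c h1 h2 => exact CA.AccB.final c (h1.trans hB) h2
  | exist c c' h1 h2 h3 _ ih => exact CA.AccB.exist c c' (h1.trans hB) h2 h3 ih
  | univ c h1 h2 h3 _ ih => exact CA.AccB.univ c (h1.trans hB) h2 h3 ih

lemma accB_acc {B : ℕ} {c : Config M} (h : CA.AccB M B c) : M.Acc c := by
  induction h with
  | final c _ h2 => exact CA.Acc.final c h2
  | exist c c' _ h2 h3 _ ih => exact CA.Acc.exist c c' h2 h3 ih
  | univ c _ h2 h3 _ ih => exact CA.Acc.univ c h2 h3 ih

/-- The accepted pairs (state, counter) in front of the unread input `v`. -/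
def AS (M : CA A) (B : ℕ) (v : List A) : Set (M.Q × Fin (B + 1)) :=
  {p | CA.AccB M B ⟨p.1, p.2, v⟩}

lemma mem_AS {B : ℕ} {v : List A} {q : M.Q} {n : ℕ} (h : CA.AccB M B ⟨q, n, v⟩) :
    ∃ hn : n < B + 1, (q, (⟨n, hn⟩ : Fin (B + 1))) ∈ AS M B v := by
  have h1 : n ≤ B := accB_cnt h
  exact ⟨by omega, h⟩

lemma sub_AS {B : ℕ} {v v' : List A} (hv : AS M B v ⊆ AS M B v') {q : M.Q} {n : ℕ}
    (h : CA.AccB M B ⟨q, n, v⟩) : CA.AccB M B ⟨q, n, v'⟩ := by
  obtain ⟨hn, h1⟩ := mem_AS h
  exact hv h1

lemma key_aux {B : ℕ} {v v' : List A} (a : A) (hv : AS M B v ⊆ AS M B v') {c : Config M}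
    (h : CA.AccB M B c) : c.rest = a :: v → CA.AccB M B ⟨c.state, c.cnt, a :: v'⟩ := by
  induction h with
  | final c h1 h2 => exact fun _ => CA.AccB.final _ h1 h2
  | exist c c' h1 h2 h3 h4 ih =>
    intro hr
    obtain ⟨q', d, m, n', hm, hs, hc⟩ := h3
    rw [hr] at hm hc
    refine CA.AccB.exist _ ⟨q', n', if m then v' else a :: v'⟩ h1 h2
      ⟨q', d, m, n', hm, hs, by simp⟩ ?_
    cases m with
    | true =>
      simp only [if_true, List.tail_cons] at hc ⊢
      subst hc
      exact sub_AS hv h4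
    | false =>
      simp only [Bool.false_eq_true, if_false] at hc ⊢
      subst hc
      exact ih rfl
  | univ c h1 h2 h3 h4 ih =>
    intro hr
    refine CA.AccB.univ _ h1 h2 ?_ ?_
    · obtain ⟨c', q', d, m, n', hm, hs, hc⟩ := h3
      rw [hr] at hm hc
      exact ⟨⟨q', n', if m then v' else a :: v'⟩, q', d, m, n', hm, hs, by simp⟩
    · rintro c2 ⟨q', d, m, n', hm, hs, hc⟩
      simp only [List.head?_cons, List.tail_cons] at hm hc
      have hstep : M.Step c ⟨q', n', if m then v else a :: v⟩ :=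
        ⟨q', d, m, n', by rw [hr]; exact hm, hs, by rw [hr]; simp⟩
      have h5 := h4 _ hstep
      have h6 := ih _ hstep
      cases m with
      | true =>
        simp only [if_true] at hc h5
        subst hc
        exact sub_AS hv h5
      | false =>
        simp only [Bool.false_eq_true, if_false] at hc h6
        subst hc
        exact h6 trivial

lemma key_cons {B : ℕ} {v v' : List A} (a : A) (hv : AS M B v = AS M B v') :
    AS M B (a :: v) = AS M B (a :: v') := by
  apply Set.Subset.antisymm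
  · rintro ⟨q, σ⟩ h
    exact key_aux a hv.le h rfl
  · rintro ⟨q, σ⟩ h
    exact key_aux a hv.ge h rfl

lemma key_append {B : ℕ} {v v' : List A} (x : List A) (hv : AS M B v = AS M B v') :
    AS M B (x ++ v) = AS M B (x ++ v') := by
  induction x with
  | nil => exact hv
  | cons a x ih => exact key_cons a ih

lemma key_init {B : ℕ} {v v' : List A} (x : List A) (hv : AS M B v = AS M B v') :
    CA.AccB M B (M.init (x ++ v)) ↔ CA.AccB M B (M.init (x ++ v')) := by
  have h := key_append x hv
  have h2 : (M.start, (0 : Fin (B + 1))) ∈ AS M B (x ++ v) ↔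
      (M.start, (0 : Fin (B + 1))) ∈ AS M B (x ++ v') := by
    rw [h]
  exact h2

/-- the number of sets -/
lemma card_bound (M : CA A) (B : ℕ) :
    Nat.card (Set (M.Q × Fin (B + 1))) = 2 ^ (Nat.card M.Q * (B + 1)) := by
  classical
  have := M.finQ
  have := Fintype.ofFinite M.Q
  rw [Nat.card_eq_fintype_card, Fintype.card_set, Fintype.card_prod, Fintype.card_fin,
    Nat.card_eq_fintype_card]

/-- a shortest word in the difference is short -/
lemma short {k n : ℕ} {w : List A} (hn : w.length = n) (h1 : CA.AccB M (k + 1) (M.init w))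
    (h2 : ¬ CA.AccB M k (M.init w))
    (hmin : ∀ w' : List A, w'.length < n → CA.AccB M (k + 1) (M.init w') →
      CA.AccB M k (M.init w')) :
    n + 1 ≤ 2 ^ (Nat.card M.Q * (k + 1)) * 2 ^ (Nat.card M.Q * (k + 1 + 1)) := by
  classical
  have := M.finQ
  let f : Fin (n + 1) → Set (M.Q × Fin (k + 1)) × Set (M.Q × Fin (k + 1 + 1)) :=
    fun i => (AS M k (w.drop i), AS M (k + 1) (w.drop i))
  have hcut : ∀ i j : ℕ, i < j → j ≤ n → AS M k (w.drop i) = AS M k (w.drop j) →
      AS M (k + 1) (w.drop i) = AS M (k + 1) (w.drop j) → False := by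
    intro i j hij hj e1 e2
    have h3 := key_init (w.take i) e1
    have h4 := key_init (w.take i) e2
    rw [List.take_append_drop] at h3 h4
    apply h2
    rw [h3]
    apply hmin
    · rw [List.length_append, List.length_take, List.length_drop, hn]
      omega
    · exact h4.mp h1
  have hf : Function.Injective f := by
    intro i j hij
    simp only [f, Prod.mk.injEq] at hij
    rcases lt_trichotomy (i : ℕ) (j : ℕ) with h | h | h
    · exact (hcut i j h (by omega) hij.1 hij.2).elim
    · exact Fin.ext h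
    · exact (hcut j i h (by omega) hij.1.symm hij.2.symm).elim
  have h5 := Nat.card_le_card_of_injective f hf
  rw [Nat.card_prod, card_bound, card_bound, Nat.card_eq_fintype_card, Fintype.card_fin] at h5
  exact h5

lemma log_bound (q : ℕ) : ∃ C : ℝ, 0 < C ∧ ∀ k n : ℕ, 3 ≤ n →
    n + 1 ≤ 2 ^ (q * (k + 1)) * 2 ^ (q * (k + 1 + 1)) → Real.log n ≤ C * (k + 1) := by
  have hq0 : (0 : ℝ) ≤ q := Nat.cast_nonneg _
  refine ⟨3 * q + 1, by linarith, ?_⟩
  intro k n hn h
  have h0 : (n : ℝ) ≤ 2 ^ (q * (2 * k + 3)) := by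
    have h1 : n ≤ 2 ^ (q * (2 * k + 3)) := by
      calc n ≤ n + 1 := Nat.le_succ n
        _ ≤ 2 ^ (q * (k + 1)) * 2 ^ (q * (k + 1 + 1)) := h
        _ = 2 ^ (q * (2 * k + 3)) := by
            rw [← pow_add]; congr 1; ring
    exact_mod_cast h1
  have hn' : (3 : ℝ) ≤ n := by exact_mod_cast hn
  have hn0 : (0 : ℝ) < n := by linarith
  have h3 := Real.log_le_log hn0 h0
  rw [Real.log_pow] at h3
  push_cast at h3
  have hl2 : Real.log 2 ≤ 1 := by
    have := Real.log_two_lt_d9
    linarith
  have hk0 : (0 : ℝ) ≤ k := Nat.cast_nonneg _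
  have h4 : (0 : ℝ) ≤ q * (2 * k + 3) := by positivity
  have h5 : Real.log n ≤ q * (2 * k + 3) := by nlinarith
  have h6 : 0 ≤ (q : ℝ) * k := by positivity
  nlinarith

/-- the languages `L_B` -/
def LB (M : CA A) (B : ℕ) : Language A := {w | CA.AccB M B (M.init w)}

lemma LB_mono {B B' : ℕ} (h : B ≤ B') : LB M B ≤ LB M B' := fun _ hw => accB_mono h hw

lemma LB_regular (M : CA A) (B : ℕ) : (LB M B).IsRegular := by
  refine Language.IsRegular.of_finite_range_leftQuotient ?_
  have := M.finQ
  have h1 : (Set.range (AS M B)).Finite := Set.toFinite _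
  have h2 := h1.powerset
  refine (h2.image fun T => ({v | AS M B v ∈ T} : Language A)).subset ?_
  rintro _ ⟨x, rfl⟩
  refine ⟨{S | ∃ v, S = AS M B v ∧ CA.AccB M B (M.init (x ++ v))}, ?_, ?_⟩
  · rintro _ ⟨v, rfl, _⟩
    exact ⟨v, rfl⟩
  · ext v
    constructor
    · rintro ⟨v', h2, h3⟩
      exact (key_init x h2).mpr h3
    · intro h2
      exact ⟨v, rfl, h2⟩

end Weak

open Weak in
/-- Piece CA-W. -/
theorem stmWeak : StmWeak := by
  intro A _ M s hs ho
  by_contra hreg
  -- infinitely many strict steps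
  have hinf : ∀ K : ℕ, ∃ k, K ≤ k ∧ LB M k ≠ LB M (k + 1) := by
    intro K
    by_contra hcon
    push Not at hcon
    have hconst : ∀ j, LB M (K + j) = LB M K := by
      intro j
      induction j with
      | zero => rfl
      | succ j ih => rw [← ih]; exact (hcon (K + j) (by omega)).symm
    apply hreg
    have hL : M.language = LB M K := by
      apply Set.Subset.antisymm
      · intro w hw
        have h1 : w ∈ LB M (K + s w.length) := accB_mono (Nat.le_add_left _ _) (hs w hw)
        rw [hconst] at h1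
        exact h1
      · intro w hw
        exact accB_acc hw
    rw [hL]
    exact LB_regular M K
  obtain ⟨C, hC, hCb⟩ := log_bound (Nat.card M.Q)
  have ho' := ho.def (show (0 : ℝ) < 1 / (2 * C) by positivity)
  rw [eventually_atTop] at ho'
  obtain ⟨n₀, hn₀⟩ := ho'
  -- a bound of `s` below `n₀`
  obtain ⟨S, hS⟩ : ∃ S : ℕ, ∀ n, n < max n₀ 3 → s n ≤ S :=
    ⟨∑ n ∈ Finset.range (max n₀ 3), s n, fun n hn =>
      Finset.single_le_sum (f := fun n => s n) (fun i _ => Nat.zero_le _)
        (Finset.mem_range.mpr hn)⟩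
  obtain ⟨k, hk, hne⟩ := hinf S
  -- a shortest word
  have hex : ∃ n : ℕ, ∃ w : List A, w.length = n ∧ w ∈ LB M (k + 1) ∧ w ∉ LB M k := by
    by_contra hcon
    push Not at hcon
    apply hne
    apply Set.Subset.antisymm
    · exact LB_mono (Nat.le_succ k)
    · intro w hw
      exact hcon w.length w rfl hw
  classical
  obtain ⟨w, hwn, hw1, hw2⟩ := Nat.find_spec hex
  have hmin : ∀ w' : List A, w'.length < Nat.find hex → CA.AccB M (k + 1) (M.init w') →
      CA.AccB M k (M.init w') := by
    intro w' hw' h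
    by_contra h2
    exact Nat.find_min hex hw' ⟨w', rfl, h, h2⟩
  have hshort := short hwn hw1 hw2 hmin
  set n := Nat.find hex with hn
  -- the space bound is large
  have hsn : k + 1 ≤ s n := by
    by_contra hlt
    push Not at hlt
    apply hw2
    have h1 := hs w (accB_acc hw1)
    rw [hwn] at h1
    exact accB_mono (by omega) h1
  have hnlarge : max n₀ 3 ≤ n := by
    by_contra hlt
    push Not at hlt
    have h1 := hS n hlt
    omega
  have h3 := hn₀ n ((le_max_left _ _).trans hnlarge)
  have hn3 : 3 ≤ n := (le_max_right _ _).trans hnlarge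
  have h4 := hCb k n hn3 hshort
  have hn' : (3 : ℝ) ≤ n := by exact_mod_cast hn3
  have hlog0 : 0 ≤ Real.log n := Real.log_nonneg (by linarith)
  rw [Real.norm_eq_abs, Real.norm_eq_abs, abs_of_nonneg hlog0] at h3
  have h5 : (s n : ℝ) ≤ 1 / (2 * C) * (C * (k + 1)) := by
    refine (le_abs_self _).trans (h3.trans ?_)
    exact mul_le_mul_of_nonneg_left h4 (by positivity)
  have h6 : 1 / (2 * C) * (C * ((k : ℝ) + 1)) = ((k : ℝ) + 1) / 2 := by
    field_simp
  rw [h6] at h5
  have hk0 : (0 : ℝ) ≤ k := Nat.cast_nonneg _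
  have h7 : (k : ℝ) + 1 ≤ s n := by exact_mod_cast hsn
  linarith

end Agent.R572.CA
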